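import Mathlib

/-!
# Counting transposition edges inside sets of permutations
-/

set_option autoImplicit false

namespace Pool.Agent.K9h87.TI

open Finset Equiv

variable {n : ℕ}

/-- Number of triples `(σ, i, j)`, `i ≠ j`, with `σ ∈ B` and `σ * swap i j ∈ C`. -/
def X (B C : Finset (Perm (Fin n))) : ℕ :=
  ∑ t ∈ (univ : Finset (Fin n)).offDiag, (B.filter fun σ => σ * swap t.1 t.2 ∈ C).card

/-- Number of triples inside `A`. -/
def S (A : Finset (Perm (Fin n))) : ℕ := X A A

/-- The class of `A` of value `v` at the position `p`. -/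
def cls (A : Finset (Perm (Fin n))) (p v : Fin n) : Finset (Perm (Fin n)) :=
  A.filter fun σ => σ p = v

/-- The active positions of `A`. -/
def act (A : Finset (Perm (Fin n))) : Finset (Fin n) :=
  univ.filter fun p => ∃ σ ∈ A, ∃ π ∈ A, σ p ≠ π p

theorem X_comm (B C : Finset (Perm (Fin n))) : X B C = X C B := by
  unfold X
  refine sum_congr rfl fun t _ => ?_
  refine card_bij' (fun σ _ => σ * swap t.1 t.2) (fun σ _ => σ * swap t.1 t.2) ?_ ?_ ?_ ?_
  · intro σ hσ
    rw [mem_filter] at hσ ⊢
    refine ⟨hσ.2, ?_⟩
    rw [mul_assoc, swap_mul_self, mul_one]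
    exact hσ.1
  · intro σ hσ
    rw [mem_filter] at hσ ⊢
    refine ⟨hσ.2, ?_⟩
    rw [mul_assoc, swap_mul_self, mul_one]
    exact hσ.1
  · intro σ _
    simp [mul_assoc]
  · intro σ _
    simp [mul_assoc]

theorem X_union_left {B B' : Finset (Perm (Fin n))} (C : Finset (Perm (Fin n)))
    (h : Disjoint B B') : X (B ∪ B') C = X B C + X B' C := by
  unfold X
  rw [← sum_add_distrib]
  refine sum_congr rfl fun t _ => ?_
  rw [filter_union, card_union_of_disjoint]
  exact disjoint_filter_filter h

theorem X_union_right {B B' : Finset (Perm (Fin n))} (C : Finset (Perm (Fin n)))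
    (h : Disjoint B B') : X C (B ∪ B') = X C B + X C B' := by
  rw [X_comm, X_union_left C h, X_comm B, X_comm B']

theorem S_union {B C : Finset (Perm (Fin n))} (h : Disjoint B C) :
    S (B ∪ C) = S B + S C + 2 * X C B := by
  unfold S
  rw [X_union_left _ h, X_union_right _ h, X_union_right _ h, X_comm B C]
  ring

theorem X_eq_sum (B C : Finset (Perm (Fin n))) :
    X B C = ∑ σ ∈ B, ((univ : Finset (Fin n)).offDiag.filter fun t =>
      σ * swap t.1 t.2 ∈ C).card := by
  unfold X
  simp only [card_filter]
  rw [sum_comm]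

/-- A permutation whose value at `p` is not `v` has at most two neighbour triples in a class of
value `v` at `p`. -/
theorem X_le_two (B C : Finset (Perm (Fin n))) (p v : Fin n) (hC : ∀ σ ∈ C, σ p = v)
    (hB : ∀ σ ∈ B, σ p ≠ v) : X B C ≤ 2 * B.card := by
  rw [X_eq_sum]
  calc _ ≤ ∑ σ ∈ B, 2 := by
        refine sum_le_sum fun σ hσ => ?_
        have h : ((univ : Finset (Fin n)).offDiag.filter fun t => σ * swap t.1 t.2 ∈ C) ⊆
            {(p, σ.symm v), (σ.symm v, p)} := by
          intro t ht
          rw [mem_filter, mem_offDiag] at ht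
          obtain ⟨⟨_, _, hne⟩, h2⟩ := ht
          have h3 := hC _ h2
          have h4 : swap t.1 t.2 p = σ.symm v := by
            rw [Equiv.eq_symm_apply]
            exact h3
          have h5 : σ.symm v ≠ p := by
            intro h
            rw [Equiv.symm_apply_eq] at h
            exact hB σ hσ h.symm
          rw [mem_insert, mem_singleton]
          by_cases h6 : p = t.1
          · left
            subst h6
            rw [swap_apply_left] at h4
            exact Prod.ext rfl h4
          · by_cases h7 : p = t.2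
            · right
              subst h7
              rw [swap_apply_right] at h4
              exact Prod.ext h4 rfl
            · rw [swap_apply_of_ne_of_ne h6 h7] at h4
              exact absurd h4.symm h5
        exact (card_le_card h).trans card_le_two
    _ = 2 * B.card := by rw [sum_const, smul_eq_mul, mul_comm]

/-- Peeling off one class. -/
theorem peel (A B C : Finset (Perm (Fin n))) (p v : Fin n) (hA : A = C ∪ B)
    (hC : ∀ σ ∈ C, σ p = v) (hB : ∀ σ ∈ B, σ p ≠ v) :
    S A ≤ S C + S B + 4 * B.card := by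
  have hd : Disjoint C B := by
    rw [disjoint_left]
    intro σ h1 h2
    exact hB σ h2 (hC σ h1)
  rw [hA, S_union hd]
  have := X_le_two B C p v hC hB
  omega

theorem mem_act {A : Finset (Perm (Fin n))} {p : Fin n} :
    p ∈ act A ↔ ∃ σ ∈ A, ∃ π ∈ A, σ p ≠ π p := by
  simp [act]

theorem sum_cls (A : Finset (Perm (Fin n))) (p : Fin n) :
    ∑ v, (cls A p v).card = A.card := by
  unfold cls
  exact (card_eq_sum_card_fiberwise (fun x _ => mem_univ (x p))).symm

theorem sum_S_cls (A : Finset (Perm (Fin n))) (p : Fin n) :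
    ∑ v, S (cls A p v) = ∑ t ∈ (univ : Finset (Fin n)).offDiag,
      if p ≠ t.1 ∧ p ≠ t.2 then (A.filter fun σ => σ * swap t.1 t.2 ∈ A).card else 0 := by
  unfold S X
  rw [sum_comm]
  refine sum_congr rfl fun t ht => ?_
  rw [mem_offDiag] at ht
  obtain ⟨_, _, hne⟩ := ht
  split_ifs with h
  · rw [card_eq_sum_card_fiberwise (f := fun σ : Perm (Fin n) => σ p)
      (t := (univ : Finset (Fin n))) (fun x _ => mem_univ _)]
    refine sum_congr rfl fun v _ => ?_
    congr 1
    ext σ
    simp only [cls, mem_filter, Perm.mul_apply, swap_apply_of_ne_of_ne h.1 h.2]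
    tauto
  · refine sum_eq_zero fun v _ => ?_
    rw [card_eq_zero, filter_eq_empty_iff]
    intro σ hσ h2
    unfold cls at hσ h2
    rw [mem_filter] at hσ h2
    have h3 : σ (swap t.1 t.2 p) = σ p := by
      rw [hσ.2]
      exact h2.2
    have h4 := σ.injective h3
    apply h
    constructor
    · intro h5
      subst h5
      rw [swap_apply_left] at h4
      exact hne h4.symm
    · intro h5
      subst h5
      rw [swap_apply_right] at h4
      exact hne h4

/-- Averaging over the active positions. -/
theorem avg (A : Finset (Perm (Fin n))) :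
    ((act A).card - 2) * S A = ∑ p ∈ act A, ∑ v, S (cls A p v) := by
  simp only [sum_S_cls]
  rw [sum_comm, S, X, mul_sum]
  refine sum_congr rfl fun t ht => ?_
  rw [mem_offDiag] at ht
  obtain ⟨_, _, hne⟩ := ht
  rw [← sum_filter, sum_const, smul_eq_mul]
  by_cases h0 : (A.filter fun σ => σ * swap t.1 t.2 ∈ A).card = 0
  · rw [h0, mul_zero, mul_zero]
  · obtain ⟨σ, hσ⟩ := card_ne_zero.1 h0
    rw [mem_filter] at hσ
    have h1 : t.1 ∈ act A := by
      rw [mem_act]
      refine ⟨σ, hσ.1, _, hσ.2, ?_⟩
      rw [Perm.mul_apply, swap_apply_left]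
      exact fun h => hne (σ.injective h)
    have h2 : t.2 ∈ act A := by
      rw [mem_act]
      refine ⟨σ, hσ.1, _, hσ.2, ?_⟩
      rw [Perm.mul_apply, swap_apply_right]
      exact fun h => hne (σ.injective h).symm
    have h3 : (act A).filter (fun p => p ≠ t.1 ∧ p ≠ t.2) = ((act A).erase t.1).erase t.2 := by
      ext p
      simp only [mem_filter, mem_erase]
      tauto
    rw [h3, card_erase_of_mem (mem_erase.2 ⟨hne.symm, h2⟩), card_erase_of_mem h1]
    congr 1

end Pool.Agent.K9h87.TI
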