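import Mathlib

/-!
# Boundary and lexicographic initial segments in the transposition graph
-/

set_option autoImplicit false

namespace Pool.Agent.K9h87.TI

open Finset Equiv

variable {n : ℕ}

/-- The size of the edge boundary of `A` in the transposition graph on the permutations of
`Fin n`: the number of pairs of a permutation `σ` in `A` and a transposition `swap i j`, `i < j`,
with `σ * swap i j` outside `A`. -/
def bnd (A : Finset (Perm (Fin n))) : ℕ :=
  ((univ : Finset (Perm (Fin n) × Fin n × Fin n)).filter
    (fun p => p.2.1 < p.2.2 ∧ p.1 ∈ A ∧ p.1 * swap p.2.1 p.2.2 ∉ A)).card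

/-- The set of the `m` smallest permutations of `Fin n` in the lexicographic order: those that
have fewer than `m` permutations before them. -/
def lexInit (n m : ℕ) : Finset (Perm (Fin n)) :=
  univ.filter (fun σ : Perm (Fin n) =>
    (univ.filter (fun π : Perm (Fin n) =>
      ∃ j : Fin n, (∀ i : Fin n, i < j → π i = σ i) ∧ π j < σ j)).card < m)

end Pool.Agent.K9h87.TI
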