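import Pool.Agent.K9h87.TI.Rec

/-!
# Lexicographic initial segments are optimal up to a factor `13 / 11`
-/

set_option autoImplicit false

namespace Pool.Agent.K9h87.TI

open Finset Equiv Nat

variable {n : ℕ}

theorem G_add (q : ℕ) (a z : ℝ) : G q (a + z) = G q a + G q z + 4 * a * z / (q ! : ℝ) := by
  unfold G
  have := (fpos q).ne'
  field_simp
  ring

/-- adding full blocks does not change the deficit -/
theorem def_step (q j y : ℕ) (hn : q + 1 ≤ n) (hy : y ≤ q !) (hj : j ≤ q) :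
    G q (j * q ! + y : ℕ) - S (lexInit n (j * q ! + y)) ≤ G q y - S (lexInit n y) := by
  have h1 := S_rec (n := n) ⟨n - 1 - q, by omega⟩ q y j (by simp only; omega) hy hj
  have h2 : G q ((j * q ! + y : ℕ) : ℝ) = G q ((j * q ! : ℕ) : ℝ) + G q y + 4 * j * y := by
    push_cast
    rw [G_add]
    have := (fpos q).ne'
    field_simp
  rw [h2]
  linarith

theorem G_mid (q : ℕ) (y : ℝ) :
    G (q + 1) y = G q y + 2 * q * (y * (1 - y / ((q + 1)! : ℕ))) := by
  have := G_sub q y
  linarith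

theorem quarter (y D : ℝ) (hD : 0 < D) : y * (1 - y / D) ≤ D / 4 := by
  have h : D / 4 - y * (1 - y / D) = (y - D / 2) ^ 2 / D := by
    field_simp
    ring
  have h2 : 0 ≤ (y - D / 2) ^ 2 / D := by positivity
  linarith

/-- the deficit of an initial segment of size at most `q!` -/
theorem def_bd (q : ℕ) : ∀ y : ℕ, y ≤ q ! → q + 1 ≤ n →
    G q y - S (lexInit n y) ≤ (q : ℝ) / 2 * (q ! : ℝ) := by
  induction q with
  | zero =>
    intro y hy _
    have hy1 : y = 0 ∨ y = 1 := by
      simp at hy; omega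
    have hS : (0 : ℝ) ≤ S (lexInit n y) := Nat.cast_nonneg _
    have hG : G 0 (y : ℝ) = 0 := by
      rcases hy1 with rfl | rfl <;> simp [G]
    rw [hG]
    simp only [Nat.cast_zero, zero_div, zero_mul]
    linarith
  | succ q ih =>
    intro y hy hn
    rcases Nat.eq_or_lt_of_le hy with h | h
    · -- full
      have h1 := G_le_S_E (n := n) ⟨n - 1 - (q + 1), by omega⟩ 1 (q + 1)
        (by simp only; omega) (by simp only; omega)
      have h2 := S_lexInit (n := n) ⟨n - 1 - (q + 1), by omega⟩ 1 (q + 1)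
        (by simp only; omega) (by simp only; omega)
      rw [one_mul] at h2
      rw [h]
      have h3 : (0 : ℝ) ≤ ((q + 1 : ℕ) : ℝ) / 2 * ((q + 1)! : ℕ) := by positivity
      linarith
    · have hF := factorial_pos q
      have hj : y / q ! ≤ q := by
        rw [factorial_succ] at h
        have := (Nat.div_lt_iff_lt_mul hF).2 h
        omega
      have h1 := def_step (n := n) q (y / q !) (y % q !) (by omega) (Nat.mod_lt _ hF).le hj
      rw [Nat.div_add_mod'] at h1
      have h2 := ih (y % q !) (Nat.mod_lt _ hF).le (by omega)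
      rw [G_mid]
      have h3 := quarter y ((q + 1)! : ℕ) (fpos _)
      have h4 : 2 * (q : ℝ) * (y * (1 - y / ((q + 1)! : ℕ))) ≤ 2 * q * ((((q + 1)! : ℕ) : ℝ) / 4) :=
        mul_le_mul_of_nonneg_left h3 (by positivity)
      have h5 := fpos q
      rw [fsucc q] at h4 ⊢
      push_cast
      nlinarith

/-- the deficit of an initial segment -/
theorem def_bd' (r j y : ℕ) (hn : r + 2 ≤ n) (hy : y < (r + 1)!) (hj : j ≤ r + 1) :
    G (r + 1) (j * (r + 1)! + y : ℕ) - S (lexInit n (j * (r + 1)! + y)) ≤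
      2 * r * (y * (1 - y / ((r + 1)! : ℕ))) + (r : ℝ) / 2 * (r ! : ℝ) := by
  have h0 := def_step (n := n) (r + 1) j y (by omega) hy.le hj
  refine h0.trans ?_
  have hF := factorial_pos r
  have hj' : y / r ! ≤ r := by
    rw [factorial_succ] at hy
    have := (Nat.div_lt_iff_lt_mul hF).2 hy
    omega
  have h1 := def_step (n := n) r (y / r !) (y % r !) (by omega) (Nat.mod_lt _ hF).le hj'
  rw [Nat.div_add_mod'] at h1
  have h2 := def_bd (n := n) r (y % r !) (Nat.mod_lt _ hF).le (by omega)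
  rw [G_mid]
  linarith

/-- the polynomial inequality -/
theorem poly (r : ℕ) (t : ℝ) (h0 : 0 ≤ t) (h1 : t ≤ 1) :
    11 * (2 * r * (t * (1 - t)) + (r : ℝ) / 2 / (r + 1)) ≤ 4 * ((1 + t) * (r + 1 - t)) := by
  rcases Nat.eq_zero_or_pos r with rfl | hr
  · simp
    nlinarith
  · have hr1 : (1 : ℝ) ≤ r := by exact_mod_cast hr
    rw [div_div, mul_add, ← mul_div_assoc]
    have h2 : (0 : ℝ) < 2 * (r + 1) := by positivity
    rw [← sub_nonneg]
    have h3 : 4 * ((1 + t) * ((r : ℝ) + 1 - t)) -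
        (11 * (2 * r * (t * (1 - t))) + 11 * r / (2 * (r + 1))) =
        (2 * (r + 1) * ((22 * r - 4) * t ^ 2 - 18 * r * t + 4 * (r + 1)) - 11 * r) /
          (2 * (r + 1)) := by
      field_simp
      ring
    rw [h3]
    apply div_nonneg _ h2.le
    have hA : (0 : ℝ) < 22 * r - 4 := by linarith
    have key : 0 ≤ 2 * (22 * (r : ℝ) - 4) *
        (2 * (r + 1) * ((22 * r - 4) * t ^ 2 - 18 * r * t + 4 * (r + 1)) - 11 * r) := by
      have h4 : 2 * (22 * (r : ℝ) - 4) *
          (2 * (r + 1) * ((22 * r - 4) * t ^ 2 - 18 * r * t + 4 * (r + 1)) - 11 * r) =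
          (r + 1) * (2 * (22 * r - 4) * t - 18 * r) ^ 2 +
            (28 * (r - 2) ^ 3 - 24 * (r - 2) + 112) := by ring
      rw [h4]
      have h5 : 0 ≤ 28 * ((r : ℝ) - 2) ^ 3 - 24 * (r - 2) + 112 := by
        nlinarith [sq_nonneg ((r : ℝ) - 2), mul_nonneg (sub_nonneg.2 hr1)
          (sq_nonneg ((r : ℝ) - 2 - 1)), mul_nonneg (sub_nonneg.2 hr1)
          (sq_nonneg ((r : ℝ) - 2))]
      positivity
    have h6 : (0 : ℝ) < 2 * (22 * r - 4) := by linarith
    exact nonneg_of_mul_nonneg_right key h6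

theorem fin_one (r j : ℕ) (t : ℝ) (ht0 : 0 ≤ t) (ht1 : t ≤ 1) (hj1 : 1 ≤ j)
    (hj : j ≤ r ∨ (j = r + 1 ∧ t = 0)) :
    11 * (2 * r * (t * (1 - t)) + (r : ℝ) / 2 / (r + 1)) ≤ 4 * ((j + t) * (r + 2 - (j + t))) := by
  rcases hj with hj | ⟨rfl, rfl⟩
  · rcases Nat.eq_or_lt_of_le hj1 with h | h
    · subst h
      have := poly r t ht0 ht1
      push_cast
      nlinarith
    · rcases Nat.eq_or_lt_of_le hj with h2 | h2
      · subst h2
        have := poly j (1 - t) (by linarith) (by linarith)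
        have h3 : 4 * ((j + t) * ((j : ℝ) + 2 - (j + t))) =
            4 * ((1 + (1 - t)) * (j + 1 - (1 - t))) := by ring
        have h4 : 11 * (2 * (j : ℝ) * (t * (1 - t)) + (j : ℝ) / 2 / (j + 1)) =
            11 * (2 * j * ((1 - t) * (1 - (1 - t))) + (j : ℝ) / 2 / (j + 1)) := by ring
        rw [h3, h4]
        exact this
      · have hj2 : (2 : ℝ) ≤ j := by exact_mod_cast h
        have hjr : (j : ℝ) + 1 ≤ r := by exact_mod_cast h2
        have h3 : (r : ℝ) / 2 / (r + 1) ≤ r / 8 := by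
          rw [div_div, div_le_div_iff₀ (by positivity) (by norm_num)]
          nlinarith
        have h4 : t * (1 - t) ≤ 1 / 4 := by nlinarith [sq_nonneg (t - 1 / 2)]
        have h5 : 2 * (r : ℝ) * (t * (1 - t)) ≤ 2 * r * (1 / 4) :=
          mul_le_mul_of_nonneg_left h4 (by positivity)
        have h6 : 0 ≤ (j + t - 2) * ((r : ℝ) - (j + t)) :=
          mul_nonneg (by linarith) (by linarith)
        nlinarith
  · have h3 : (r : ℝ) / 2 / (r + 1) ≤ (r + 1) / 8 := by
      rw [div_div, div_le_div_iff₀ (by positivity) (by norm_num)]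
      nlinarith [sq_nonneg ((r : ℝ) - 1)]
    have : (0 : ℝ) ≤ r := by positivity
    push_cast
    nlinarith

theorem fin_two (r : ℕ) (t x : ℝ) (hx1 : 1 ≤ x) (hx : x ≤ r + 2) :
    11 * (2 * r * (t * (1 - t)) + (r : ℝ) / 2 / (r + 1)) ≤ 4 * (x * (2 * r + 4 - x)) := by
  have hr : (0 : ℝ) ≤ r := by positivity
  have h3 : (r : ℝ) / 2 / (r + 1) ≤ 1 / 2 := by
    rw [div_div, div_le_div_iff₀ (by positivity) (by norm_num)]
    nlinarith
  have h4 : t * (1 - t) ≤ 1 / 4 := by nlinarith [sq_nonneg (t - 1 / 2)]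
  have h5 : 2 * (r : ℝ) * (t * (1 - t)) ≤ 2 * r * (1 / 4) :=
    mul_le_mul_of_nonneg_left h4 (by positivity)
  have h6 : 0 ≤ (x - 1) * (2 * (r : ℝ) + 3 - x) := mul_nonneg (by linarith) (by linarith)
  nlinarith

/-- the main case -/
theorem core (r m : ℕ) (A : Finset (Perm (Fin n))) (hA : A.card = m) (h1 : (r + 1)! ≤ m)
    (h2 : m < (r + 2)!) (hn : r + 3 ≤ n ∨ (n = r + 2 ∧ m ≤ (r + 1) * (r + 1)!)) :
    11 * bnd (lexInit n m) ≤ 13 * bnd A := by
  have hn2 : r + 2 ≤ n := by omega
  have hD := factorial_pos (r + 1)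
  set j := m / (r + 1)! with hj
  set y := m % (r + 1)! with hy
  have hm : m = j * (r + 1)! + y := (Nat.div_add_mod' m _).symm
  have hy1 : y < (r + 1)! := Nat.mod_lt _ hD
  have hj1 : 1 ≤ j := (Nat.one_le_div_iff hD).2 h1
  have hj2 : j ≤ r + 1 := by
    rw [show r + 2 = (r + 1) + 1 by ring, factorial_succ] at h2
    have := (Nat.div_lt_iff_lt_mul hD).2 h2
    omega
  have hdef := def_bd' (n := n) r j y hn2 hy1 hj2
  rw [← hm] at hdef
  have hmn : m ≤ n ! := h2.le.trans (factorial_le hn2)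
  have hSA := S_le A (r + 1)
  rw [hA] at hSA
  have b1 := bnd_S A
  have b2 := bnd_S (lexInit n m)
  rw [card_lexInit m hmn] at b2
  rw [hA] at b1
  have c1 : 2 * (bnd A : ℝ) + S A = m * ((n : ℝ) * n - n) := by
    rw [← Nat.cast_mul n n, ← Nat.cast_sub (Nat.le_mul_self n)]
    exact_mod_cast b1
  have c2 : 2 * (bnd (lexInit n m) : ℝ) + S (lexInit n m) = m * ((n : ℝ) * n - n) := by
    rw [← Nat.cast_mul n n, ← Nat.cast_sub (Nat.le_mul_self n)]
    exact_mod_cast b2
  -- normalise
  have hDr : (0 : ℝ) < ((r + 1)! : ℕ) := fpos _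
  have hFr : (0 : ℝ) < (r ! : ℝ) := fpos _
  set D : ℝ := (((r + 1)! : ℕ) : ℝ) with hDdef
  have hDF : D = (r + 1) * (r ! : ℝ) := by rw [hDdef, fsucc]
  set t : ℝ := y / D with ht
  have hyt : (y : ℝ) = t * D := by rw [ht]; field_simp
  have ht0 : 0 ≤ t := by positivity
  have ht1 : t ≤ 1 := by
    rw [ht, div_le_one hDr, hDdef]
    exact_mod_cast hy1.le
  have hmx : (m : ℝ) = (j + t) * D := by
    rw [hm]
    push_cast
    rw [← hDdef, hyt]
    ring
  have hmD : (m : ℝ) / D = j + t := by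
    rw [hmx]; field_simp
  have hj1r : (1 : ℝ) ≤ j := by exact_mod_cast hj1
  have hj2r : (j : ℝ) ≤ r + 1 := by exact_mod_cast hj2
  -- the inequality between the deficit and the bound
  have hkey : 11 * (2 * r * (y * (1 - y / D)) + (r : ℝ) / 2 * (r ! : ℝ)) ≤
      4 * (m * ((n : ℝ) * (n - 1) / 2 + 1 - ((r : ℝ) + 1) * r / 2 - m / D)) := by
    have e1 : 2 * r * (y * (1 - y / D)) + (r : ℝ) / 2 * (r ! : ℝ) =
        D * (2 * r * (t * (1 - t)) + (r : ℝ) / 2 / (r + 1)) := by
      rw [← ht, hyt, hDF]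
      field_simp
    rw [e1, hmD, hmx]
    have e2 : 2 * r * (t * (1 - t)) + (r : ℝ) / 2 / (r + 1) = 2 * r * (t * (1 - t)) + (r : ℝ) / 2 / (r + 1) := rfl
    rcases hn with hn3 | ⟨hn3, hmle⟩
    · have f := fin_two r t (j + t) (by linarith) (by linarith)
      have hn4 : (r : ℝ) + 3 ≤ n := by exact_mod_cast hn3
      have hcoef : 2 * (r : ℝ) + 4 ≤ (n : ℝ) * (n - 1) / 2 + 1 - ((r : ℝ) + 1) * r / 2 := by
        have hr0 : (0 : ℝ) ≤ r := by positivity
        nlinarith
      have hx0 : 0 ≤ (j : ℝ) + t := by positivity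
      have g1 : (j + t) * (2 * (r : ℝ) + 4 - (j + t)) ≤
          (j + t) * ((n : ℝ) * (n - 1) / 2 + 1 - ((r : ℝ) + 1) * r / 2 - (j + t)) :=
        mul_le_mul_of_nonneg_left (by linarith) hx0
      have g2 : 11 * (2 * r * (t * (1 - t)) + (r : ℝ) / 2 / (r + 1)) ≤
          4 * ((j + t) * ((n : ℝ) * (n - 1) / 2 + 1 - ((r : ℝ) + 1) * r / 2 - (j + t))) := by
        linarith
      have g3 := mul_le_mul_of_nonneg_left g2 hDr.le
      linarith
    · have hcase : j ≤ r ∨ (j = r + 1 ∧ t = 0) := by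
        rcases Nat.lt_or_ge r j with h | h
        · right
          have hjr : j = r + 1 := by omega
          refine ⟨hjr, ?_⟩
          have : y = 0 := by
            rw [hm, hjr] at hmle
            omega
          rw [ht, this]
          simp
        · exact Or.inl h
      have f := fin_one r j t ht0 ht1 hj1 hcase
      have hcoef : (n : ℝ) * (n - 1) / 2 + 1 - ((r : ℝ) + 1) * r / 2 = r + 2 := by
        rw [hn3]; push_cast; ring
      rw [hcoef]
      have g3 := mul_le_mul_of_nonneg_left f hDr.le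
      linarith
  have hG : G (r + 1) m = 2 * (m * (((r : ℝ) + 1) * r / 2 - 1 + m / D)) := by
    unfold G
    push_cast
    ring
  rw [hG] at hSA hdef
  have hfin : 11 * (bnd (lexInit n m) : ℝ) ≤ 13 * bnd A := by
    linarith
  exact_mod_cast hfin

theorem bnd_compl (A : Finset (Perm (Fin n))) : bnd (univ \ A) = bnd A := by
  have h1 := S_compl 1 univ A (by rw [cos_univ]; exact subset_univ _)
  rw [cos_univ, offDiag_card, Finset.card_univ, Fintype.card_fin] at h1
  have h2 := bnd_S A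
  have h3 := bnd_S (univ \ A)
  omega

theorem bnd_lm (g : Perm (Fin n)) (A : Finset (Perm (Fin n))) : bnd (lm g A) = bnd A := by
  have h2 := bnd_S A
  have h3 := bnd_S (lm g A)
  rw [card_lm, S_lm] at h3
  omega

theorem bnd_lexInit_compl (m m' : ℕ) (h : m + m' = n !) :
    bnd (lexInit n m) = bnd (lexInit n m') := by
  have hlow : ∀ σ ∈ univ \ lm Fin.revPerm (lexInit n m'), ∀ π, lt π σ →
      π ∈ univ \ lm Fin.revPerm (lexInit n m') := by
    intro σ hσ π hπ
    rw [mem_sdiff] at hσ ⊢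
    refine ⟨mem_univ _, fun h0 => hσ.2 ?_⟩
    unfold lm at h0 ⊢
    rw [mem_filter] at h0 ⊢
    exact ⟨mem_univ _, lexInit_lower m' _ h0.2 _ (lt_rev hπ)⟩
  have hc : (univ \ lm Fin.revPerm (lexInit n m')).card = m := by
    have h1 := card_sdiff_add_card_eq_card (subset_univ (lm Fin.revPerm (lexInit n m')))
    rw [card_lm, card_lexInit m' (by omega), Finset.card_univ, Fintype.card_perm,
      Fintype.card_fin] at h1
    omega
  have h1 := lexInit_eq _ hlow
  rw [hc] at h1
  rw [h1, bnd_compl, bnd_lm]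

/-- the scale of a size -/
theorem scale (m : ℕ) (h0 : 0 < m) (hm : m < n !) :
    ∃ r, (r + 1)! ≤ m ∧ m < (r + 2)! ∧ r + 2 ≤ n := by
  have hspec : (Nat.findGreatest (fun k => k ! ≤ m) n)! ≤ m :=
    Nat.findGreatest_spec (P := fun k => k ! ≤ m) (Nat.zero_le n)
      (by rw [factorial_zero]; exact h0)
  set q := Nat.findGreatest (fun k => k ! ≤ m) n with hq
  have hqn : q ≤ n := Nat.findGreatest_le n
  have hq1 : q < n := by
    rcases Nat.eq_or_lt_of_le hqn with h | h
    · rw [h] at hspec; omega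
    · exact h
  have hq2 : m < (q + 1)! := by
    by_contra hcon
    push Not at hcon
    exact Nat.findGreatest_is_greatest (P := fun k => k ! ≤ m) (Nat.lt_succ_self q) (by omega)
      hcon
  rcases Nat.eq_zero_or_pos q with h | h
  · rw [h] at hq2
    simp at hq2
    omega
  · refine ⟨q - 1, ?_, ?_, by omega⟩
    · rwa [show q - 1 + 1 = q by omega]
    · rwa [show q - 1 + 2 = q + 1 by omega]

/-- **Lexicographic initial segments are optimal up to a factor `13 / 11`, for every size.** -/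
theorem factor (A : Finset (Perm (Fin n))) : 11 * bnd (lexInit n A.card) ≤ 13 * bnd A := by
  have hAn : A.card ≤ n ! := by
    have := card_le_univ A
    rwa [Fintype.card_perm, Fintype.card_fin] at this
  rcases Nat.eq_zero_or_pos A.card with h0 | h0
  · rw [h0, lexInit_zero, bnd_empty]
    exact Nat.zero_le _
  rcases Nat.eq_or_lt_of_le hAn with hf | hf
  · rw [hf, lexInit_fact, bnd_univ]
    exact Nat.zero_le _
  obtain ⟨r, hr1, hr2, hr3⟩ := scale A.card h0 hf
  by_cases hcond : r + 3 ≤ n ∨ (n = r + 2 ∧ A.card ≤ (r + 1) * (r + 1)!)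
  · exact core r A.card A rfl hr1 hr2 hcond
  · push Not at hcond
    have hn : n = r + 2 := by omega
    have hgt := hcond.2 hn
    -- the complement
    have hcA : (univ \ A).card + A.card = n ! := by
      have h3 := card_sdiff_add_card_eq_card (subset_univ A)
      rwa [Finset.card_univ, Fintype.card_perm, Fintype.card_fin] at h3
    rw [bnd_lexInit_compl A.card (univ \ A).card (by omega), ← bnd_compl A]
    have hlt : (univ \ A).card < (r + 1)! := by
      have h4 : n ! = (r + 2) * (r + 1)! := by rw [hn, factorial_succ]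
      have h5 : (r + 2) * (r + 1)! = (r + 1) * (r + 1)! + (r + 1)! := by ring
      omega
    rcases Nat.eq_zero_or_pos (univ \ A).card with h1 | h1
    · rw [h1, lexInit_zero, bnd_empty]
      exact Nat.zero_le _
    obtain ⟨r', hr1', hr2', hr3'⟩ := scale (n := n) (univ \ A).card h1 (by omega)
    refine core r' (univ \ A).card (univ \ A) rfl hr1' hr2' (Or.inl ?_)
    by_contra hcon
    have h6 : r' = r := by omega
    rw [h6] at hr1'
    omega

end Pool.Agent.K9h87.TI
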