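import Pool.Agent.K9h87.TI.Main
import Pool.Agent.K9h87.TI.Defs

/-!
# Initial segments of the lexicographic order
-/

set_option autoImplicit false

namespace Pool.Agent.K9h87.TI

open Finset Equiv Nat

variable {n : ℕ}

/-- lexicographic order -/
def lt (π σ : Perm (Fin n)) : Prop :=
  ∃ j : Fin n, (∀ i : Fin n, i < j → π i = σ i) ∧ π j < σ j

theorem lt_irrefl' (σ : Perm (Fin n)) : ¬ lt σ σ := by
  rintro ⟨j, _, h⟩
  exact lt_irrefl _ h

theorem lt_total (π σ : Perm (Fin n)) : lt π σ ∨ π = σ ∨ lt σ π := by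
  by_cases h : π = σ
  · exact Or.inr (Or.inl h)
  have hex : (univ.filter fun i : Fin n => π i ≠ σ i).Nonempty := by
    by_contra h0
    rw [not_nonempty_iff_eq_empty, filter_eq_empty_iff] at h0
    apply h
    ext i
    have := h0 (mem_univ i)
    push Not at this
    rw [this]
  set j := (univ.filter fun i : Fin n => π i ≠ σ i).min' hex with hj
  have h1 : π j ≠ σ j := by
    have := min'_mem _ hex
    rw [← hj, mem_filter] at this
    exact this.2
  have h2 : ∀ i, i < j → π i = σ i := by
    intro i hi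
    by_contra h3
    have := min'_le (univ.filter fun i : Fin n => π i ≠ σ i) i (by
      rw [mem_filter]; exact ⟨mem_univ _, h3⟩)
    rw [← hj] at this
    exact absurd hi (not_lt.2 this)
  rcases lt_or_gt_of_ne h1 with h3 | h3
  · exact Or.inl ⟨j, h2, h3⟩
  · exact Or.inr (Or.inr ⟨j, fun i hi => (h2 i hi).symm, h3⟩)

/-- A lower set of cardinality `m` is the initial segment of size `m`. -/
theorem lexInit_eq (E : Finset (Perm (Fin n))) (hE : ∀ σ ∈ E, ∀ π, lt π σ → π ∈ E) :
    lexInit n E.card = E := by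
  classical
  ext σ
  unfold lexInit
  rw [mem_filter]
  constructor
  · rintro ⟨_, h⟩
    by_contra h0
    refine absurd h (not_lt.2 (card_le_card ?_))
    intro π hπ
    rw [mem_filter]
    refine ⟨mem_univ _, ?_⟩
    rcases lt_total π σ with h1 | h1 | h1
    · exact h1
    · exact absurd (h1 ▸ hπ) h0
    · exact absurd (hE π hπ σ h1) h0
  · intro h
    refine ⟨mem_univ _, ?_⟩
    apply card_lt_card
    refine ⟨fun π hπ => hE σ h π (mem_filter.1 hπ).2, fun h1 => ?_⟩
    exact lt_irrefl' σ (mem_filter.1 (h1 h)).2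

/-- The boundary and the number of inner triples. -/
theorem bnd_S (A : Finset (Perm (Fin n))) :
    2 * bnd A + S A = A.card * (n * n - n) := by
  have h1 : bnd A = ∑ t ∈ (univ : Finset (Fin n × Fin n)).filter (fun t => t.1 < t.2),
      (A.filter fun σ => σ * swap t.1 t.2 ∉ A).card := by
    unfold bnd
    simp only [card_filter, sum_filter]
    rw [Fintype.sum_prod_type_right]
    refine sum_congr rfl fun t _ => ?_
    split_ifs with h
    · rw [← sum_filter_add_sum_filter_not univ (fun σ => σ ∈ A)]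
      have h2 : ∑ x with x ∉ A, (if t.1 < t.2 ∧ x ∈ A ∧ x * swap t.1 t.2 ∉ A then 1 else 0) =
          0 := by
        refine sum_eq_zero fun x hx => ?_
        rw [mem_filter] at hx
        rw [if_neg]
        tauto
      rw [h2, add_zero]
      have h3 : (univ.filter fun σ => σ ∈ A) = A := by ext; simp
      rw [h3]
      refine sum_congr rfl fun x hx => ?_
      simp [h, hx]
    · refine sum_eq_zero fun x _ => ?_
      rw [if_neg]
      tauto
  have h2 : ∑ t ∈ (univ : Finset (Fin n)).offDiag,
      (A.filter fun σ => σ * swap t.1 t.2 ∉ A).card = 2 * bnd A := by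
    have h3 : (univ : Finset (Fin n)).offDiag =
        (univ : Finset (Fin n × Fin n)).filter (fun t => t.1 < t.2) ∪
        (univ : Finset (Fin n × Fin n)).filter (fun t => t.2 < t.1) := by
      ext t
      simp only [mem_offDiag, mem_univ, true_and, mem_union, mem_filter]
      exact lt_or_lt_iff_ne.symm
    have h4 : Disjoint ((univ : Finset (Fin n × Fin n)).filter (fun t => t.1 < t.2))
        ((univ : Finset (Fin n × Fin n)).filter (fun t => t.2 < t.1)) := by
      rw [disjoint_filter]
      intro t _ h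
      exact not_lt.2 h.le
    rw [h3, sum_union h4, h1, two_mul]
    congr 1
    refine sum_bij' (fun t _ => t.swap) (fun t _ => t.swap) ?_ ?_ ?_ ?_ ?_
    · intro t ht
      rw [mem_filter] at ht ⊢
      exact ⟨mem_univ _, ht.2⟩
    · intro t ht
      rw [mem_filter] at ht ⊢
      exact ⟨mem_univ _, ht.2⟩
    · intro t _; rfl
    · intro t _; rfl
    · intro t _
      rw [Prod.fst_swap, Prod.snd_swap, swap_comm]
  rw [← h2]
  unfold S X
  rw [← sum_add_distrib]
  rw [sum_congr rfl (g := fun _ => A.card), sum_const, smul_eq_mul, offDiag_card,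
    Finset.card_univ, Fintype.card_fin, mul_comm]
  intro t _
  rw [add_comm]
  exact card_filter_add_card_filter_not _

/-- initial segments of one factorial digit -/
def E (s : Fin n) (j : ℕ) : Finset (Perm (Fin n)) :=
  univ.filter fun σ : Perm (Fin n) => (∀ i, i < s → σ i = i) ∧ (σ s : ℕ) < s + j

theorem mem_E {s : Fin n} {j : ℕ} {σ : Perm (Fin n)} :
    σ ∈ E s j ↔ (∀ i, i < s → σ i = i) ∧ (σ s : ℕ) < s + j := by
  simp [E]

theorem val_ge {s : Fin n} {σ : Perm (Fin n)} (h : ∀ i, i < s → σ i = i) {a : Fin n}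
    (ha : s ≤ a) : s ≤ σ a := by
  by_contra h0
  push Not at h0
  have h1 := σ.injective (h _ h0)
  rw [h1] at h0
  exact absurd ha (not_le.2 h0)

theorem E_lower (s : Fin n) (j : ℕ) : ∀ σ ∈ E s j, ∀ π, lt π σ → π ∈ E s j := by
  intro σ hσ π hπ
  rw [mem_E] at hσ ⊢
  obtain ⟨k, h1, h2⟩ := hπ
  have hk : s ≤ k := by
    by_contra h0
    push Not at h0
    rw [hσ.1 k h0] at h2
    have h3 : π (π k) = π k := by
      rw [h1 _ h2, hσ.1 _ (h2.trans h0)]
    have h4 := π.injective h3
    rw [h4] at h2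
    exact lt_irrefl _ h2
  refine ⟨fun i hi => ?_, ?_⟩
  · rw [h1 i (lt_of_lt_of_le hi hk), hσ.1 i hi]
  · rcases eq_or_lt_of_le hk with h | h
    · subst h
      exact lt_trans (Fin.lt_def.1 h2) hσ.2
    · rw [h1 s h]
      exact hσ.2

/-- the possible values at `s` -/
def W (s : Fin n) (j : ℕ) : Finset (Fin n) := univ.filter fun v => s ≤ v ∧ (v : ℕ) < s + j

theorem card_W (s : Fin n) (j : ℕ) (h : (s : ℕ) + j ≤ n) : (W s j).card = j := by
  have h1 : (W s j).map Fin.valEmbedding = Ico (s : ℕ) (s + j) := by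
    ext x
    simp only [W, mem_map, mem_filter, mem_univ, true_and, Fin.valEmbedding_apply, mem_Ico]
    constructor
    · rintro ⟨a, ⟨h1, h2⟩, rfl⟩
      exact ⟨h1, h2⟩
    · rintro ⟨h1, h2⟩
      exact ⟨⟨x, by omega⟩, ⟨h1, h2⟩, rfl⟩
  rw [← card_map Fin.valEmbedding, h1, Nat.card_Ico]
  omega

theorem card_E (s : Fin n) (j : ℕ) (h : (s : ℕ) + j ≤ n) :
    (E s j).card = j * (n - 1 - s)! := by
  rw [card_eq_sum_card_fiberwise (f := fun σ : Perm (Fin n) => σ s) (t := W s j)]
  · rw [sum_congr rfl (g := fun _ => (n - 1 - s)!), sum_const, card_W s j h, smul_eq_mul]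
    intro v hv
    unfold W at hv
    rw [mem_filter] at hv
    have h1 : (E s j).filter (fun σ => σ s = v) = cos (swap s v) (Ioi s) := by
      ext σ
      unfold cos
      rw [mem_filter, mem_E, mem_filter]
      constructor
      · rintro ⟨⟨h2, h3⟩, h4⟩
        refine ⟨mem_univ _, fun a ha => ?_⟩
        rw [mem_Ioi, not_lt] at ha
        rcases eq_or_lt_of_le ha with h5 | h5
        · rw [h5, h4, swap_apply_left]
        · rw [h2 a h5, swap_apply_of_ne_of_ne h5.ne (lt_of_lt_of_le h5 hv.2.1).ne]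
      · rintro ⟨_, h2⟩
        have h3 : σ s = v := by
          rw [h2 s (by simp), swap_apply_left]
        refine ⟨⟨fun i hi => ?_, ?_⟩, h3⟩
        · rw [h2 i (by simpa using hi.le), swap_apply_of_ne_of_ne hi.ne
            (lt_of_lt_of_le hi hv.2.1).ne]
        · rw [h3]
          exact hv.2.2
    rw [h1, card_cos, Fin.card_Ioi]
  · intro σ hσ
    rw [mem_coe, mem_E] at hσ
    unfold W
    rw [mem_coe, mem_filter]
    exact ⟨mem_univ _, val_ge hσ.1 le_rfl, hσ.2⟩

theorem nb_E (s : Fin n) (j : ℕ) (h : (s : ℕ) + j ≤ n) (σ : Perm (Fin n)) (hσ : σ ∈ E s j) :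
    (n - 1 - s) * (n - 1 - s) - (n - 1 - s) + 2 * (j - 1) ≤
      ((univ : Finset (Fin n)).offDiag.filter fun t => σ * swap t.1 t.2 ∈ E s j).card := by
  classical
  have hσ' := mem_E.1 hσ
  set W' := (W s j).erase (σ s) with hW'
  have hW'c : W'.card = j - 1 := by
    rw [hW', card_erase_of_mem, card_W s j h]
    unfold W
    rw [mem_filter]
    exact ⟨mem_univ _, val_ge hσ'.1 le_rfl, hσ'.2⟩
  have hWs : ∀ v ∈ W', s < σ.symm v := by
    intro v hv
    rw [hW', mem_erase] at hv
    have h1 : s ≤ v := (mem_filter.1 hv.2).2.1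
    by_contra h0
    rw [not_lt] at h0
    rcases eq_or_lt_of_le h0 with h2 | h2
    · rw [Equiv.symm_apply_eq] at h2
      exact hv.1 h2
    · have h3 := hσ'.1 _ h2
      rw [Equiv.apply_symm_apply] at h3
      rw [← h3] at h2
      exact absurd h1 (not_le.2 h2)
  set I1 := W'.image fun v => ((s, σ.symm v) : Fin n × Fin n) with hI1
  set I2 := W'.image fun v => ((σ.symm v, s) : Fin n × Fin n) with hI2
  have hI1c : I1.card = j - 1 := by
    rw [hI1, Finset.card_image_of_injective, hW'c]
    intro a b hab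
    exact σ.symm.injective (Prod.ext_iff.1 hab).2
  have hI2c : I2.card = j - 1 := by
    rw [hI2, Finset.card_image_of_injective, hW'c]
    intro a b hab
    exact σ.symm.injective (Prod.ext_iff.1 hab).1
  have hd1 : Disjoint I1 I2 := by
    rw [disjoint_left]
    intro t h1 h2
    rw [hI1, mem_image] at h1
    rw [hI2, mem_image] at h2
    obtain ⟨v, hv, rfl⟩ := h1
    obtain ⟨w, hw, h3⟩ := h2
    have h4 := hWs w hw
    have h5 : σ.symm w = s := (Prod.ext_iff.1 h3).1
    rw [h5] at h4
    exact lt_irrefl _ h4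
  have hd2 : Disjoint (Ioi s).offDiag (I1 ∪ I2) := by
    rw [disjoint_left]
    intro t h1 h2
    rw [mem_offDiag, mem_Ioi, mem_Ioi] at h1
    rw [mem_union, hI1, hI2, mem_image, mem_image] at h2
    rcases h2 with ⟨v, _, rfl⟩ | ⟨v, _, rfl⟩
    · exact lt_irrefl _ h1.1
    · exact lt_irrefl _ h1.2.1
  have hoff : ((Ioi s).offDiag).card = (n - 1 - s) * (n - 1 - s) - (n - 1 - s) := by
    rw [offDiag_card, Fin.card_Ioi]
  have hsub : (Ioi s).offDiag ∪ (I1 ∪ I2) ⊆
      (univ : Finset (Fin n)).offDiag.filter fun t => σ * swap t.1 t.2 ∈ E s j := by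
    intro t ht
    rw [mem_union, mem_union] at ht
    rw [mem_filter, mem_offDiag, mem_E]
    rcases ht with ht | ht | ht
    · rw [mem_offDiag, mem_Ioi, mem_Ioi] at ht
      refine ⟨⟨mem_univ _, mem_univ _, ht.2.2⟩, fun i hi => ?_, ?_⟩
      · rw [Perm.mul_apply, swap_apply_of_ne_of_ne (hi.trans ht.1).ne (hi.trans ht.2.1).ne,
          hσ'.1 i hi]
      · rw [Perm.mul_apply, swap_apply_of_ne_of_ne ht.1.ne ht.2.1.ne]
        exact hσ'.2
    · rw [hI1, mem_image] at ht
      obtain ⟨v, hv, rfl⟩ := ht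
      have h1 := hWs v hv
      refine ⟨⟨mem_univ _, mem_univ _, h1.ne⟩, fun i hi => ?_, ?_⟩
      · rw [Perm.mul_apply, swap_apply_of_ne_of_ne hi.ne (hi.trans h1).ne, hσ'.1 i hi]
      · rw [Perm.mul_apply, swap_apply_left, Equiv.apply_symm_apply]
        rw [hW', mem_erase] at hv
        exact (mem_filter.1 hv.2).2.2
    · rw [hI2, mem_image] at ht
      obtain ⟨v, hv, rfl⟩ := ht
      have h1 := hWs v hv
      refine ⟨⟨mem_univ _, mem_univ _, h1.ne'⟩, fun i hi => ?_, ?_⟩
      · rw [Perm.mul_apply, swap_apply_of_ne_of_ne (hi.trans h1).ne hi.ne, hσ'.1 i hi]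
      · rw [Perm.mul_apply, swap_apply_right, Equiv.apply_symm_apply]
        rw [hW', mem_erase] at hv
        exact (mem_filter.1 hv.2).2.2
  refine le_trans ?_ (card_le_card hsub)
  rw [card_union_of_disjoint hd2, card_union_of_disjoint hd1, hI1c, hI2c, hoff]
  omega

/-- the segments `E s j` attain the bound -/
theorem G_le_S_E (s : Fin n) (j q : ℕ) (hq : n - 1 - s = q) (h : (s : ℕ) + j ≤ n) :
    G q (j * (q ! : ℕ) : ℕ) ≤ S (E s j) := by
  have h1 : (E s j).card * (q * q - q + 2 * (j - 1)) ≤ S (E s j) := by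
    unfold S
    rw [X_eq_sum]
    calc _ = ∑ σ ∈ E s j, (q * q - q + 2 * (j - 1)) := by rw [sum_const, smul_eq_mul]
      _ ≤ _ := sum_le_sum fun σ hσ => by
          have := nb_E s j h σ hσ
          rwa [hq] at this
  rw [card_E s j h, hq] at h1
  rcases Nat.eq_zero_or_pos j with rfl | hj
  · simp [G]
  have h2 : ((j * q ! * (q * q - q + 2 * (j - 1)) : ℕ) : ℝ) ≤ S (E s j) := by exact_mod_cast h1
  refine le_trans (le_of_eq ?_) h2
  unfold G
  push_cast [Nat.cast_sub (Nat.le_mul_self q), Nat.cast_sub (show 1 ≤ j from hj)]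
  have := (fpos q).ne'
  field_simp
  ring

theorem S_lexInit (s : Fin n) (j q : ℕ) (hq : n - 1 - s = q) (h : (s : ℕ) + j ≤ n) :
    G q (j * (q ! : ℕ) : ℕ) ≤ S (lexInit n (j * q !)) := by
  have h1 := lexInit_eq (E s j) (E_lower s j)
  rw [card_E s j h, hq] at h1
  rw [h1]
  exact G_le_S_E s j q hq h

/-- left multiplication -/
def lm (g : Perm (Fin n)) (A : Finset (Perm (Fin n))) : Finset (Perm (Fin n)) :=
  univ.filter fun σ => g * σ ∈ A

theorem card_lm (g : Perm (Fin n)) (A : Finset (Perm (Fin n))) : (lm g A).card = A.card := by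
  unfold lm
  refine card_bij' (fun σ _ => g * σ) (fun σ _ => g⁻¹ * σ) ?_ ?_ ?_ ?_
  · intro σ hσ
    exact (mem_filter.1 hσ).2
  · intro σ hσ
    rw [mem_filter]
    refine ⟨mem_univ _, ?_⟩
    simpa using hσ
  · intro σ _; simp
  · intro σ _; simp

theorem S_lm (g : Perm (Fin n)) (A : Finset (Perm (Fin n))) : S (lm g A) = S A := by
  unfold S X lm
  refine sum_congr rfl fun t _ => ?_
  refine card_bij' (fun σ _ => g * σ) (fun σ _ => g⁻¹ * σ) ?_ ?_ ?_ ?_
  · intro σ hσ
    simp only [mem_filter, mem_univ, true_and] at hσ ⊢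
    rw [mul_assoc]
    exact hσ
  · intro σ hσ
    simp only [mem_filter, mem_univ, true_and] at hσ ⊢
    rw [mul_inv_cancel_left, mul_assoc, mul_inv_cancel_left]
    exact hσ
  · intro σ _; simp
  · intro σ _; simp

theorem lt_rev {π σ : Perm (Fin n)} (h : lt σ π) : lt (Fin.revPerm * π) (Fin.revPerm * σ) := by
  obtain ⟨j, h1, h2⟩ := h
  refine ⟨j, fun i hi => ?_, ?_⟩
  · rw [Perm.mul_apply, Perm.mul_apply, h1 i hi]
  · rw [Perm.mul_apply, Perm.mul_apply, Fin.revPerm_apply, Fin.revPerm_apply, Fin.rev_lt_rev]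
    exact h2

/-- Complementary sizes. -/
theorem S_lexInit_compl (s : Fin n) (j q m : ℕ) (hq : n - 1 - s = q) (h : (s : ℕ) + j ≤ n)
    (hm : m + j * q ! = n !) :
    G q (j * (q ! : ℕ) : ℕ) ≤ S (univ \ lexInit n m) := by
  have hlow : ∀ σ ∈ univ \ lm Fin.revPerm (E s j), ∀ π, lt π σ →
      π ∈ univ \ lm Fin.revPerm (E s j) := by
    intro σ hσ π hπ
    rw [mem_sdiff] at hσ ⊢
    refine ⟨mem_univ _, fun h0 => hσ.2 ?_⟩
    unfold lm at h0 ⊢
    rw [mem_filter] at h0 ⊢
    exact ⟨mem_univ _, E_lower s j _ h0.2 _ (lt_rev hπ)⟩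
  have hc : (univ \ lm Fin.revPerm (E s j)).card = m := by
    have h1 := card_sdiff_add_card_eq_card (subset_univ (lm Fin.revPerm (E s j)))
    rw [card_lm, card_E s j h, hq, Finset.card_univ, Fintype.card_perm, Fintype.card_fin] at h1
    omega
  have h1 := lexInit_eq _ hlow
  rw [hc] at h1
  rw [h1, Finset.sdiff_sdiff_eq_self (subset_univ _), S_lm]
  exact G_le_S_E s j q hq h

theorem cos_univ (σ₀ : Perm (Fin n)) : cos σ₀ univ = univ := by
  unfold cos
  rw [filter_true_of_mem]
  intro σ _ a ha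
  exact absurd (mem_univ a) ha

theorem card_lexInit_E (s : Fin n) (j q : ℕ) (hq : n - 1 - s = q) (h : (s : ℕ) + j ≤ n) :
    (lexInit n (j * q !)).card = j * q ! := by
  have h1 := lexInit_eq (E s j) (E_lower s j)
  rw [card_E s j h, hq] at h1
  rw [h1, card_E s j h, hq]

/-- Comparison of boundaries by inner triples. -/
theorem bnd_le (A B : Finset (Perm (Fin n))) (hc : A.card = B.card) (h : S A ≤ S B) :
    bnd B ≤ bnd A := by
  have h1 := bnd_S A
  have h2 := bnd_S B
  rw [hc] at h1
  omega

theorem bnd_empty : bnd (∅ : Finset (Perm (Fin n))) = 0 := by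
  simp [bnd]

theorem bnd_univ : bnd (univ : Finset (Perm (Fin n))) = 0 := by
  simp [bnd]

theorem lexInit_zero : lexInit n 0 = ∅ := by
  simp [lexInit]

theorem lexInit_fact : lexInit n (n !) = univ := by
  have h := lexInit_eq (univ : Finset (Perm (Fin n))) (fun _ _ _ _ => mem_univ _)
  rwa [Finset.card_univ, Fintype.card_perm, Fintype.card_fin] at h

/-- **The conjecture for the sizes `j * q!` and `n! - j * q!`, `j ≤ q + 1`.** -/
theorem sizes (q j : ℕ) (hj : j ≤ q + 1) (A : Finset (Perm (Fin n)))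
    (hA : A.card = j * q ! ∨ A.card + j * q ! = n !) :
    bnd (lexInit n A.card) ≤ bnd A := by
  have hAn : A.card ≤ n ! := by
    have := card_le_univ A
    rwa [Fintype.card_perm, Fintype.card_fin] at this
  by_cases hqn : n ≤ q
  · -- only the sizes `0` and `n!`
    have h1 : A.card = 0 ∨ A.card = n ! := by
      have h2 := factorial_le hqn
      rcases Nat.eq_zero_or_pos j with rfl | h0
      · rcases hA with hA | hA
        · left; simpa using hA
        · right; simpa using hA
      · have h3 : q ! ≤ j * q ! := Nat.le_mul_of_pos_left _ h0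
        rcases hA with hA | hA
        · right; omega
        · left; omega
    rcases h1 with h1 | h1
    · rw [h1, lexInit_zero, bnd_empty]
      exact Nat.zero_le _
    · rw [h1, lexInit_fact, bnd_univ]
      exact Nat.zero_le _
  · push Not at hqn
    set s : Fin n := ⟨n - 1 - q, by omega⟩ with hs
    have hsq : n - 1 - (s : ℕ) = q := by rw [hs]; simp only; omega
    have hsj : (s : ℕ) + j ≤ n := by rw [hs]; simp only; omega
    rcases hA with hA | hA
    · apply bnd_le
      · rw [hA, card_lexInit_E s j q hsq hsj]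
      · have h1 := S_le A q
        have h2 := S_lexInit s j q hsq hsj
        rw [hA] at h1 ⊢
        exact_mod_cast h1.trans h2
    · -- complements
      have hsubA : A ⊆ cos 1 (univ : Finset (Fin n)) := by rw [cos_univ]; exact subset_univ _
      have hsubL : lexInit n A.card ⊆ cos 1 (univ : Finset (Fin n)) := by
        rw [cos_univ]; exact subset_univ _
      have h1 := S_compl 1 univ A hsubA
      have h2 := S_compl 1 univ (lexInit n A.card) hsubL
      rw [cos_univ] at h1 h2
      have hcL : (lexInit n A.card).card = A.card := by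
        have hlow : ∀ σ ∈ univ \ lm Fin.revPerm (E s j), ∀ π, lt π σ →
            π ∈ univ \ lm Fin.revPerm (E s j) := by
          intro σ hσ π hπ
          rw [mem_sdiff] at hσ ⊢
          refine ⟨mem_univ _, fun h0 => hσ.2 ?_⟩
          unfold lm at h0 ⊢
          rw [mem_filter] at h0 ⊢
          exact ⟨mem_univ _, E_lower s j _ h0.2 _ (lt_rev hπ)⟩
        have hc : (univ \ lm Fin.revPerm (E s j)).card = A.card := by
          have h1 := card_sdiff_add_card_eq_card (subset_univ (lm Fin.revPerm (E s j)))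
          rw [card_lm, card_E s j hsj, hsq, Finset.card_univ, Fintype.card_perm,
            Fintype.card_fin] at h1
          omega
        have h3 := lexInit_eq _ hlow
        rw [hc] at h3
        rw [h3, hc]
      have hcA' : (univ \ A).card = j * q ! := by
        have h3 := card_sdiff_add_card_eq_card (subset_univ A)
        rw [Finset.card_univ, Fintype.card_perm, Fintype.card_fin] at h3
        omega
      have hcL' : (univ \ lexInit n A.card).card = j * q ! := by
        have h3 := card_sdiff_add_card_eq_card (subset_univ (lexInit n A.card))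
        rw [Finset.card_univ, Fintype.card_perm, Fintype.card_fin] at h3
        omega
      have h3 := S_le (univ \ A) q
      have h4 := S_lexInit_compl s j q A.card hsq hsj hA
      rw [hcA'] at h3
      have h5 : S (univ \ A) ≤ S (univ \ lexInit n A.card) := by exact_mod_cast h3.trans h4
      rw [hcA'] at h1
      rw [hcL', hcL] at h2
      refine bnd_le _ _ hcL.symm ?_
      omega

end Pool.Agent.K9h87.TI
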