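import Pool.Agent.K9h87.TI.Row

/-!
# The edge-isoperimetric inequality at every factorial scale
-/

set_option autoImplicit false

namespace Pool.Agent.K9h87.TI

open Finset Equiv Nat

variable {n : ℕ}

theorem act_nonempty {A : Finset (Perm (Fin n))} (h : 1 < A.card) : (act A).Nonempty := by
  obtain ⟨σ, hσ, π, hπ, hne⟩ := one_lt_card.1 h
  by_contra h0
  rw [not_nonempty_iff_eq_empty] at h0
  apply hne
  ext p
  by_contra h1
  have h2 : p ∈ act A := mem_act.2 ⟨σ, hσ, π, hπ, fun h3 => h1 (congrArg Fin.val h3)⟩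
  rw [h0] at h2
  exact absurd h2 (notMem_empty _)

theorem card_le_fact (A : Finset (Perm (Fin n))) (h : A.Nonempty) :
    A.card ≤ (act A).card ! := by
  obtain ⟨σ₀, h0⟩ := h
  rw [← card_cos σ₀]
  exact card_le_card (subset_cos A σ₀ h0)

/-- **The edge-isoperimetric inequality.** -/
theorem main : ∀ (m : ℕ) (A : Finset (Perm (Fin n))), A.card = m →
    ∀ q : ℕ, (S A : ℝ) ≤ G q A.card := by
  intro m
  induction m using Nat.strong_induction_on with
  | _ m ih =>
  intro A hA q
  have IH : ∀ B : Finset (Perm (Fin n)), B.card < A.card → ∀ q, (S B : ℝ) ≤ G q B.card :=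
    fun B hB q => ih B.card (hA ▸ hB) B rfl q
  rcases Nat.eq_zero_or_pos A.card with h0 | h0
  · rw [Finset.card_eq_zero] at h0
    subst h0
    simp [S, X, G]
  rcases Nat.eq_or_lt_of_le (show 1 ≤ A.card from h0) with h1 | h1
  · obtain ⟨σ, rfl⟩ := card_eq_one.1 h1.symm
    have h2 : S {σ} = 0 := by
      unfold S X
      refine sum_eq_zero fun t ht => ?_
      rw [mem_offDiag] at ht
      rw [Finset.card_eq_zero, filter_eq_empty_iff]
      intro π hπ h3
      rw [mem_singleton] at hπ h3
      subst hπ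
      have h4 : swap t.1 t.2 = 1 := by simpa using h3
      exact ht.2.2 (swap_eq_one_iff.1 h4)
    have h3 : G 0 ((({σ} : Finset (Perm (Fin n))).card : ℕ) : ℝ) = 0 := by
      simp [G]
    rw [h2]
    have h4 := G_min (q := 0) (x := ((({σ} : Finset (Perm (Fin n))).card : ℕ) : ℝ))
      (by simp) (by simp) q
    rw [h3] at h4
    simpa using h4
  -- the scale
  obtain ⟨r, hr1, hr2⟩ : ∃ r, (r + 1)! < A.card ∧ A.card ≤ (r + 2)! := by
    have hex : ∃ k, A.card ≤ (k + 2)! := ⟨A.card, (Nat.self_le_factorial _).trans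
      (factorial_le (by omega))⟩
    classical
    refine ⟨Nat.find hex, ?_, Nat.find_spec hex⟩
    rcases Nat.eq_zero_or_pos (Nat.find hex) with h | h
    · rw [h]; simpa using h1
    · have h2 := Nat.find_min hex (Nat.sub_lt h Nat.one_pos)
      push Not at h2
      rwa [show Nat.find hex - 1 + 2 = Nat.find hex + 1 by omega] at h2
  have hmin : ∀ q, G (r + 1) A.card ≤ G q A.card := fun q =>
    G_min (q := r + 1) (x := (A.card : ℝ)) (by exact_mod_cast hr1.le) (by exact_mod_cast hr2) q
  refine le_trans ?_ (hmin q)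
  by_contra hcon
  have hrow : ∀ p ∈ act A, (∀ v, (cls A p v).card < (r + 1)!) ∧
      ((r : ℝ) + 1) * ∑ v, ((cls A p v).card : ℝ) ^ 2 ≤ (A.card : ℝ) ^ 2 := by
    intro p hp
    rcases row A p hp r IH with h | h
    · exact absurd h hcon
    · exact h
  obtain ⟨p₀, hp₀⟩ := act_nonempty h1
  -- `r ≥ 1`
  have hr : 1 ≤ r := by
    by_contra h2
    have h3 : r = 0 := by omega
    subst h3
    have h4 := (hrow p₀ hp₀).1
    have h5 : A.card = 0 := by
      rw [← sum_cls A p₀]
      refine sum_eq_zero fun v _ => ?_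
      have := h4 v
      simpa using this
    omega
  -- the number of active positions
  have hn1 : r + 2 ≤ (act A).card := by
    by_contra h2
    push Not at h2
    have h3 := card_le_fact A (card_pos.1 h0)
    have h4 := factorial_le (show (act A).card ≤ r + 1 by omega)
    omega
  -- averaging
  have hF := fpos r
  have havg : ∀ V : ℝ, (∀ p ∈ act A, ∑ v, ((cls A p v).card : ℝ) ^ 2 ≤ V) →
      (((act A).card : ℝ) - 2) * S A ≤ (act A).card *
        (2 * (((r : ℝ) * (r - 1) / 2 - 1) * A.card + V / (r ! : ℝ))) := by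
    intro V hV
    have h2 := avg A
    have h3 : (((act A).card : ℝ) - 2) * S A = ∑ p ∈ act A, ∑ v, (S (cls A p v) : ℝ) := by
      have h4 : (((act A).card - 2 : ℕ) : ℝ) = ((act A).card : ℝ) - 2 := by
        rw [Nat.cast_sub (by omega)]; norm_num
      rw [← h4]
      exact_mod_cast h2
    rw [h3]
    have h5 : ∀ p ∈ act A, ∑ v, (S (cls A p v) : ℝ) ≤
        2 * (((r : ℝ) * (r - 1) / 2 - 1) * A.card + V / (r ! : ℝ)) := by
      intro p hp
      have h6 : ∑ v, (S (cls A p v) : ℝ) ≤ ∑ v, G r (cls A p v).card :=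
        sum_le_sum fun v _ => IH _ (cls_lt hp v) r
      refine h6.trans ?_
      have h7 : ∑ v, G r (cls A p v).card = 2 * (((r : ℝ) * (r - 1) / 2 - 1) * A.card +
          (∑ v, ((cls A p v).card : ℝ) ^ 2) / (r ! : ℝ)) := by
        have h8 : (A.card : ℝ) = ∑ v, ((cls A p v).card : ℝ) := by
          exact_mod_cast (sum_cls A p).symm
        rw [h8, mul_sum, sum_div, ← sum_add_distrib, mul_sum]
        refine sum_congr rfl fun v _ => ?_
        unfold G
        ring
      rw [h7]
      have h9 : (∑ v, ((cls A p v).card : ℝ) ^ 2) / (r ! : ℝ) ≤ V / (r ! : ℝ) :=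
        div_le_div_of_nonneg_right (hV p hp) hF.le
      linarith
    calc ∑ p ∈ act A, ∑ v, (S (cls A p v) : ℝ) ≤ ∑ p ∈ act A,
          2 * (((r : ℝ) * (r - 1) / 2 - 1) * A.card + V / (r ! : ℝ)) := sum_le_sum h5
      _ = _ := by rw [sum_const, nsmul_eq_mul]
  have hr0 : (0 : ℝ) < (r : ℝ) + 1 := by positivity
  rcases Nat.eq_or_lt_of_le hn1 with hn2 | hn2
  · -- `n' = q + 1`
    by_cases h2m : 2 * A.card ≤ (r + 2)!
    · apply hcon
      refine avg_num1 r hr (S A) A.card ((A.card : ℝ) ^ 2 / (r + 1)) (by positivity)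
        (by exact_mod_cast h2m) (by rw [mul_div_cancel₀ _ hr0.ne']) ?_
      have h2 := havg ((A.card : ℝ) ^ 2 / (r + 1)) (fun p hp => by
        rw [le_div_iff₀ hr0, mul_comm]
        exact (hrow p hp).2)
      rw [← hn2] at h2
      push_cast at h2
      have h3 : (r : ℝ) + 2 - 2 = r := by ring
      rw [h3] at h2
      exact h2
    · push Not at h2m
      apply hcon
      obtain ⟨σ₀, h0'⟩ := card_pos.1 h0
      have hsub := subset_cos A σ₀ h0'
      have h2 := S_compl σ₀ (act A) A hsub
      have h3 : (cos σ₀ (act A) \ A).card + A.card = (r + 2)! := by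
        rw [card_sdiff_add_card_eq_card hsub, card_cos, ← hn2]
      have h4 := IH (cos σ₀ (act A) \ A) (by omega) (r + 1)
      have h5 := G_compl (r + 1) A.card (cos σ₀ (act A) \ A).card (by
        rw [add_comm]; exact_mod_cast h3)
      rw [h5]
      have h6 : ((act A).offDiag.card : ℝ) = ((r : ℝ) + 2) * (r + 1) := by
        rw [offDiag_card, ← hn2, Nat.cast_sub (Nat.le_mul_self _)]
        push_cast
        ring
      have h7 : (S A : ℝ) + (cos σ₀ (act A) \ A).card * (act A).offDiag.card =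
          S (cos σ₀ (act A) \ A) + A.card * (act A).offDiag.card := by exact_mod_cast h2
      rw [h6] at h7
      push_cast
      linarith
  · -- `n' ≥ q + 2`
    apply hcon
    have hV : ∀ p ∈ act A, ∑ v, ((cls A p v).card : ℝ) ^ 2 ≤
        min ((A.card : ℝ) ^ 2 / (r + 1)) (((r + 1)! : ℕ) * (A.card : ℝ)) := by
      intro p hp
      refine le_min ?_ ?_
      · rw [le_div_iff₀ hr0, mul_comm]
        exact (hrow p hp).2
      · have h8 : (A.card : ℝ) = ∑ v, ((cls A p v).card : ℝ) := by
          exact_mod_cast (sum_cls A p).symm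
        rw [h8, mul_sum]
        refine sum_le_sum fun v _ => ?_
        rw [sq]
        refine mul_le_mul_of_nonneg_right ?_ (by positivity)
        exact_mod_cast ((hrow p hp).1 v).le
    refine avg_num2 r (act A).card hr (by omega) (S A) A.card _ (by positivity)
      (by exact_mod_cast hr1.le) ?_ (min_le_right _ _) (havg _ hV)
    have h9 := min_le_left ((A.card : ℝ) ^ 2 / (r + 1)) (((r + 1)! : ℕ) * (A.card : ℝ))
    calc ((r : ℝ) + 1) * _ ≤ (r + 1) * ((A.card : ℝ) ^ 2 / (r + 1)) :=
          mul_le_mul_of_nonneg_left h9 hr0.le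
      _ = _ := by rw [mul_div_cancel₀ _ hr0.ne']

theorem S_le (A : Finset (Perm (Fin n))) (q : ℕ) : (S A : ℝ) ≤ G q A.card :=
  main A.card A rfl q

end Pool.Agent.K9h87.TI
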