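import Mathlib

/-!
# The numerical part of the edge-isoperimetric inequality
-/

set_option autoImplicit false

namespace Pool.Agent.K9h87.TI

open Finset Nat

/-- The bound `2 x L_q(x)`, `L_q(x) = q (q - 1) / 2 - 1 + x / q!`. -/
noncomputable def G (q : ℕ) (x : ℝ) : ℝ :=
  2 * x * ((q : ℝ) * (q - 1) / 2 - 1 + x / (q ! : ℝ))

theorem fpos (q : ℕ) : (0 : ℝ) < (q ! : ℝ) := by exact_mod_cast factorial_pos q

theorem fsucc (q : ℕ) : (((q + 1)! : ℕ) : ℝ) = (q + 1) * (q ! : ℝ) := by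
  rw [factorial_succ]; push_cast; ring

/-- comparison of consecutive lines -/
theorem G_sub (q : ℕ) (x : ℝ) :
    G q x - G (q + 1) x = 2 * x * q * (x / ((q + 1)! : ℕ) - 1) := by
  unfold G
  rw [fsucc]
  have h := (fpos q).ne'
  have h2 : ((q : ℝ) + 1) ≠ 0 := by positivity
  push_cast
  field_simp
  ring

theorem G_le_succ {q : ℕ} {x : ℝ} (h0 : 0 ≤ x) (h : x ≤ ((q + 1)! : ℕ)) :
    G q x ≤ G (q + 1) x := by
  have h1 := G_sub q x
  have h2 : x / ((q + 1)! : ℕ) - 1 ≤ 0 := by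
    rw [sub_nonpos, div_le_one (fpos _)]
    exact h
  have h3 : 2 * x * q * (x / ((q + 1)! : ℕ) - 1) ≤ 0 :=
    mul_nonpos_of_nonneg_of_nonpos (by positivity) h2
  linarith

theorem G_succ_le {q : ℕ} {x : ℝ} (h : ((q + 1)! : ℕ) ≤ x) :
    G (q + 1) x ≤ G q x := by
  have h0 : 0 ≤ x := (fpos _).le.trans h
  have h1 := G_sub q x
  have h2 : 0 ≤ x / ((q + 1)! : ℕ) - 1 := by
    rw [sub_nonneg, one_le_div (fpos _)]
    exact h
  have h3 : 0 ≤ 2 * x * q * (x / ((q + 1)! : ℕ) - 1) := by positivity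
  linarith

/-- The line `q` is the smallest one between `q!` and `(q + 1)!`. -/
theorem G_min {q : ℕ} {x : ℝ} (h1 : (q ! : ℝ) ≤ x) (h2 : x ≤ ((q + 1)! : ℕ)) (r : ℕ) :
    G q x ≤ G r x := by
  have h0 : 0 ≤ x := (fpos _).le.trans h1
  rcases le_total q r with h | h
  · induction r, h using Nat.le_induction with
    | base => exact le_rfl
    | succ r hr ih =>
      refine ih.trans (G_le_succ h0 (h2.trans ?_))
      exact_mod_cast factorial_le (by omega)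
  · obtain ⟨d, rfl⟩ := Nat.exists_eq_add_of_le h
    clear h
    induction d generalizing r with
    | zero => exact le_rfl
    | succ d ih =>
      have h3 : r + (d + 1) = (r + 1) + d := by ring
      rw [h3] at h1 h2 ⊢
      refine (ih (r := r + 1) h1 h2).trans (G_succ_le (le_trans ?_ h1))
      exact_mod_cast factorial_le (by omega)

theorem abel (w c : ℕ → ℝ) (n : ℕ) (hw : ∀ i, i < n → 0 ≤ w i)
    (hanti : ∀ i, i + 1 < n → w (i + 1) ≤ w i)
    (hc : ∀ j, 1 ≤ j → j ≤ n → 0 ≤ ∑ i ∈ range j, c i) :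
    0 ≤ ∑ i ∈ range n, w i * c i := by
  rcases Nat.eq_zero_or_pos n with rfl | hn
  · simp
  have key : ∀ j, j + 1 ≤ n → w j * ∑ i ∈ range (j + 1), c i ≤
      ∑ i ∈ range (j + 1), w i * c i := by
    intro j
    induction j with
    | zero => intro _; simp
    | succ j ih =>
      intro hj
      have h1 := ih (by omega)
      rw [sum_range_succ _ (j + 1), sum_range_succ _ (j + 1), mul_add]
      have h2 := hc (j + 1) (by omega) (by omega)
      have h3 := hanti j (by omega)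
      have h4 : w (j + 1) * ∑ i ∈ range (j + 1), c i ≤ w j * ∑ i ∈ range (j + 1), c i :=
        mul_le_mul_of_nonneg_right h3 h2
      linarith
  obtain ⟨k, rfl⟩ : ∃ k, n = k + 1 := ⟨n - 1, by omega⟩
  exact (mul_nonneg (hw k (by omega)) (hc (k + 1) (by omega) le_rfl)).trans (key k le_rfl)

theorem G_step (r : ℕ) (b m' : ℝ) :
    G r b + 4 * m' + G (r + 1) m' - G (r + 1) (b + m') =
      2 * ((1 - b / ((r + 1)! : ℕ)) * (2 * m' - r * b)) := by
  unfold G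
  rw [fsucc]
  have h := (fpos r).ne'
  have h2 : ((r : ℝ) + 1) ≠ 0 := by positivity
  push_cast
  field_simp
  ring

/-- The row lemma, numerical part. -/
theorem row_num (r n : ℕ) (s : ℝ) (b m : ℕ → ℝ) (hm : ∀ i, i < n → m i = b i + m (i + 1))
    (hn : m n = 0) (hb0 : ∀ i, i < n → 0 ≤ b i)
    (hbD : ∀ i, i < n → b i < ((r + 1)! : ℕ)) (hanti : ∀ i, i + 1 < n → b (i + 1) ≤ b i)
    (hs : ∀ j, 1 ≤ j → j ≤ n →
      s ≤ ∑ i ∈ range j, (G r (b i) + 4 * m (i + 1)) + G (r + 1) (m j)) :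
    s ≤ G (r + 1) (m 0) ∨ ((r : ℝ) + 1) * ∑ i ∈ range n, b i ^ 2 ≤ m 0 ^ 2 := by
  by_cases hs0 : s ≤ G (r + 1) (m 0)
  · exact Or.inl hs0
  right
  push Not at hs0
  set D : ℝ := (((r + 1)! : ℕ) : ℝ) with hD
  have hD0 : 0 < D := fpos _
  have h1 : ∀ j, j ≤ n → ∑ i ∈ range j, (G r (b i) + 4 * m (i + 1)) + G (r + 1) (m j) =
      G (r + 1) (m 0) + 2 * ∑ i ∈ range j, ((1 - b i / D) * (2 * m (i + 1) - r * b i)) := by
    intro j
    induction j with
    | zero => intro _; simp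
    | succ j ih =>
      intro hj
      have h2 := ih (by omega)
      have h3 := G_step r (b j) (m (j + 1))
      rw [← hm j (by omega), ← hD] at h3
      rw [sum_range_succ, sum_range_succ]
      linarith
  have h2 : ∀ j, 1 ≤ j → j ≤ n →
      0 ≤ ∑ i ∈ range j, ((1 - b i / D) * (2 * m (i + 1) - r * b i)) := by
    intro j hj1 hj2
    have h3 := hs j hj1 hj2
    rw [h1 j hj2] at h3
    linarith
  have hpos : ∀ i, i < n → 0 < 1 - b i / D := by
    intro i hi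
    rw [sub_pos, div_lt_one hD0]
    exact hbD i hi
  have h3 := abel (fun i => b i / (1 - b i / D))
    (fun i => (1 - b i / D) * (2 * m (i + 1) - r * b i)) n
    (fun i hi => div_nonneg (hb0 i hi) (hpos i hi).le)
    (fun i hi => by
      have h4 := hanti i hi
      exact div_le_div₀ (hb0 i (by omega)) h4 (hpos i (by omega)) (by
        have : b (i + 1) / D ≤ b i / D := div_le_div_of_nonneg_right h4 hD0.le
        linarith)) h2
  have h4 : ∑ i ∈ range n, (b i / (1 - b i / D)) *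
      ((1 - b i / D) * (2 * m (i + 1) - r * b i)) =
      ∑ i ∈ range n, ((m i ^ 2 - m (i + 1) ^ 2) - (r + 1) * b i ^ 2) := by
    refine sum_congr rfl fun i hi => ?_
    rw [mem_range] at hi
    have h5 := (hpos i hi).ne'
    rw [hm i hi, ← mul_assoc, div_mul_cancel₀ _ h5]
    ring
  rw [h4, sum_sub_distrib, sum_range_sub', hn, ← mul_sum] at h3
  linarith

/-- The bound in the case `n' = q + 1`, `2 m ≤ (q + 1)!`. -/
theorem avg_num1 (r : ℕ) (hr : 1 ≤ r) (s m V : ℝ) (hm : 0 ≤ m) (h2m : 2 * m ≤ ((r + 2)! : ℕ))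
    (hV : ((r : ℝ) + 1) * V ≤ m ^ 2)
    (hs : (r : ℝ) * s ≤ (r + 2) * (2 * (((r : ℝ) * (r - 1) / 2 - 1) * m + V / (r ! : ℝ)))) :
    s ≤ G (r + 1) m := by
  have hF := fpos r
  have hr0 : (0 : ℝ) < r := by exact_mod_cast hr
  have h1 : ((r + 2)! : ℕ) = ((r : ℝ) + 2) * (((r : ℝ) + 1) * (r ! : ℝ)) := by
    rw [fsucc (r + 1), fsucc r]; push_cast; ring
  rw [h1] at h2m
  unfold G
  rw [fsucc]
  push_cast
  have h3 : V / (r ! : ℝ) ≤ m ^ 2 / (((r : ℝ) + 1) * (r ! : ℝ)) := by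
    rw [div_le_div_iff₀ hF (by positivity)]
    nlinarith
  set y : ℝ := m / (((r : ℝ) + 1) * (r ! : ℝ)) with hy
  have hy1 : m ^ 2 / (((r : ℝ) + 1) * (r ! : ℝ)) = m * y := by rw [hy]; ring
  have hy2 : 2 * y ≤ r + 2 := by
    rw [hy, ← mul_div_assoc, div_le_iff₀ (by positivity)]
    exact h2m
  rw [hy1] at h3
  have h4 : (r : ℝ) * s ≤ r * (2 * m * (((r : ℝ) + 1) * ((r : ℝ) + 1 - 1) / 2 - 1 + y)) := by
    refine hs.trans ?_
    have h5 : ((r : ℝ) + 2) * (2 * (((r : ℝ) * (r - 1) / 2 - 1) * m + V / (r ! : ℝ))) ≤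
        (r + 2) * (2 * (((r : ℝ) * (r - 1) / 2 - 1) * m + m * y)) := by
      have : (0 : ℝ) ≤ r + 2 := by positivity
      gcongr
    refine h5.trans ?_
    have h6 : (0 : ℝ) ≤ m * (r + 2 - 2 * y) := mul_nonneg hm (by linarith)
    nlinarith
  exact le_of_mul_le_mul_left h4 hr0

/-- The bound in the case `n' ≥ q + 2`. -/
theorem avg_num2 (r k : ℕ) (hr : 1 ≤ r) (hk : r + 3 ≤ k) (s m V : ℝ) (hm : 0 ≤ m)
    (hDm : ((r + 1)! : ℕ) ≤ m) (hV1 : ((r : ℝ) + 1) * V ≤ m ^ 2) (hV2 : V ≤ ((r + 1)! : ℕ) * m)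
    (hs : ((k : ℝ) - 2) * s ≤ k * (2 * (((r : ℝ) * (r - 1) / 2 - 1) * m + V / (r ! : ℝ)))) :
    s ≤ G (r + 1) m := by
  have hF := fpos r
  have hr0 : (1 : ℝ) ≤ r := by exact_mod_cast hr
  have hk0 : (r : ℝ) + 3 ≤ k := by exact_mod_cast hk
  unfold G
  rw [fsucc] at hDm hV2 ⊢
  push_cast
  set y : ℝ := m / (((r : ℝ) + 1) * (r ! : ℝ)) with hy
  have hFF : (0 : ℝ) < ((r : ℝ) + 1) * (r ! : ℝ) := by positivity
  have hym : m = y * (((r : ℝ) + 1) * (r ! : ℝ)) := by rw [hy]; field_simp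
  have hy1 : 1 ≤ y := by
    rw [hy, one_le_div hFF]
    exact hDm
  -- the bound for V / r! by m times z, z = min y (r + 1)
  obtain ⟨z, hz1, hz2, hz3, hz4⟩ : ∃ z : ℝ, V / (r ! : ℝ) ≤ m * z ∧ z ≤ y ∧ z ≤ r + 1 ∧ 1 ≤ z := by
    rcases le_total y (r + 1) with h | h
    · refine ⟨y, ?_, le_rfl, h, hy1⟩
      have h3 : V / (r ! : ℝ) ≤ m ^ 2 / (((r : ℝ) + 1) * (r ! : ℝ)) := by
        rw [div_le_div_iff₀ hF (by positivity)]
        nlinarith
      have : m ^ 2 / (((r : ℝ) + 1) * (r ! : ℝ)) = m * y := by rw [hy]; ring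
      linarith
    · refine ⟨r + 1, ?_, h, le_rfl, by linarith⟩
      rw [div_le_iff₀ hF]
      nlinarith
  have h5 : 0 ≤ ((r : ℝ) * (r - 1) / 2 - 1) + z := by nlinarith
  have h6 : ((k : ℝ) - 2) * s ≤ k * (2 * m * (((r : ℝ) * (r - 1) / 2 - 1) + z)) := by
    refine hs.trans ?_
    have : (0 : ℝ) ≤ k := by positivity
    refine mul_le_mul_of_nonneg_left ?_ this
    nlinarith
  have hk2 : (0 : ℝ) < (k : ℝ) - 2 := by linarith
  have h7 : (k : ℝ) * (2 * m * (((r : ℝ) * (r - 1) / 2 - 1) + z)) ≤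
      ((k : ℝ) - 2) * (((r : ℝ) + 3) / (r + 1) * (2 * m * (((r : ℝ) * (r - 1) / 2 - 1) + z))) := by
    have h8 : (k : ℝ) ≤ (k - 2) * ((r + 3) / (r + 1)) := by
      rw [← mul_div_assoc, le_div_iff₀ (by positivity)]
      nlinarith
    have h9 : 0 ≤ 2 * m * (((r : ℝ) * (r - 1) / 2 - 1) + z) := by positivity
    calc _ ≤ (k - 2) * (((r : ℝ) + 3) / (r + 1)) *
          (2 * m * (((r : ℝ) * (r - 1) / 2 - 1) + z)) := mul_le_mul_of_nonneg_right h8 h9
      _ = _ := by ring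
  have h10 := le_of_mul_le_mul_left (h6.trans h7) hk2
  refine h10.trans ?_
  rw [div_mul_eq_mul_div, div_le_iff₀ (by positivity)]
  have h11 : ((r : ℝ) + 3) * (((r : ℝ) * (r - 1) / 2 - 1) + z) ≤
      (((r : ℝ) + 1) * ((r : ℝ) + 1 - 1) / 2 - 1 + y) * (r + 1) := by
    nlinarith
  nlinarith

/-- Complementation. -/
theorem G_compl (q : ℕ) (m m' : ℝ) (h : m + m' = ((q + 1)! : ℕ)) :
    G q m = G q m' + (q + 1) * q * (m - m') := by
  unfold G
  rw [fsucc] at h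
  have hF := (fpos q).ne'
  have hm : m = (q + 1) * (q ! : ℝ) - m' := by linarith
  rw [hm]
  field_simp
  ring

/-- One peel suffices for a large class. -/
theorem G_peel (q : ℕ) (a c : ℝ) (ha : (q ! : ℝ) ≤ a) (hc : 0 ≤ c) :
    G q a + G q c + 4 * c ≤ G q (a + c) := by
  unfold G
  have hF := fpos q
  have h1 : 2 * (a + c) * ((q : ℝ) * (q - 1) / 2 - 1 + (a + c) / (q ! : ℝ)) -
      2 * a * ((q : ℝ) * (q - 1) / 2 - 1 + a / (q ! : ℝ)) -
      2 * c * ((q : ℝ) * (q - 1) / 2 - 1 + c / (q ! : ℝ)) = 4 * (a / (q ! : ℝ)) * c := by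
    field_simp
    ring
  have h2 : 1 ≤ a / (q ! : ℝ) := by rwa [one_le_div hF]
  nlinarith

end Pool.Agent.K9h87.TI
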