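import Pool.Agent.K9h87.TI.Lex

/-!
# The recursion for the initial segments of the lexicographic order
-/

set_option autoImplicit false

namespace Pool.Agent.K9h87.TI

open Finset Equiv Nat

variable {n : ℕ}

theorem lt_trans' {ρ π σ : Perm (Fin n)} (h1 : lt ρ π) (h2 : lt π σ) : lt ρ σ := by
  obtain ⟨j, hj, hj'⟩ := h1
  obtain ⟨k, hk, hk'⟩ := h2
  rcases lt_trichotomy j k with h | h | h
  · refine ⟨j, fun i hi => (hj i hi).trans (hk i (hi.trans h)), ?_⟩
    rw [← hk j h]
    exact hj'
  · subst h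
    exact ⟨j, fun i hi => (hj i hi).trans (hk i hi), hj'.trans hk'⟩
  · refine ⟨k, fun i hi => (hj i (hi.trans h)).trans (hk i hi), ?_⟩
    rw [hj k h]
    exact hk'

/-- the rank in the lexicographic order -/
noncomputable def rk (σ : Perm (Fin n)) : ℕ := by
  classical exact (univ.filter fun π => lt π σ).card

theorem rk_lt {π σ : Perm (Fin n)} (h : lt π σ) : rk π < rk σ := by
  classical
  unfold rk
  apply card_lt_card
  refine ⟨fun ρ hρ => ?_, fun h1 => ?_⟩
  · rw [mem_filter] at hρ ⊢
    exact ⟨mem_univ _, lt_trans' hρ.2 h⟩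
  · have h2 : π ∈ univ.filter fun ρ => lt ρ π := h1 (by rw [mem_filter]; exact ⟨mem_univ _, h⟩)
    exact lt_irrefl' π (mem_filter.1 h2).2

theorem rk_inj : Function.Injective (rk : Perm (Fin n) → ℕ) := by
  intro π σ h
  rcases lt_total π σ with h1 | h1 | h1
  · exact absurd (rk_lt h1) (by omega)
  · exact h1
  · exact absurd (rk_lt h1) (by omega)

theorem rk_lt_fact (σ : Perm (Fin n)) : rk σ < n ! := by
  classical
  have h : (univ : Finset (Perm (Fin n))).card = n ! := by
    rw [Finset.card_univ, Fintype.card_perm, Fintype.card_fin]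
  rw [← h]
  unfold rk
  apply card_lt_card
  refine ⟨subset_univ _, fun h1 => ?_⟩
  exact lt_irrefl' σ (mem_filter.1 (h1 (mem_univ σ))).2

theorem mem_lexInit (m : ℕ) (σ : Perm (Fin n)) : σ ∈ lexInit n m ↔ rk σ < m := by
  classical
  unfold lexInit rk
  rw [mem_filter]
  have : (univ.filter (fun π : Perm (Fin n) =>
      ∃ j : Fin n, (∀ i : Fin n, i < j → π i = σ i) ∧ π j < σ j)) =
      (univ.filter fun π => lt π σ) := by
    ext π
    rw [mem_filter, mem_filter]
    exact Iff.rfl
  rw [this]
  simp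

theorem card_lexInit (m : ℕ) (hm : m ≤ n !) : (lexInit n m).card = m := by
  classical
  have h1 : (univ : Finset (Perm (Fin n))).image rk = range (n !) := by
    apply eq_of_subset_of_card_le
    · intro x hx
      rw [mem_image] at hx
      obtain ⟨σ, _, rfl⟩ := hx
      rw [mem_range]
      exact rk_lt_fact σ
    · rw [Finset.card_image_of_injective _ rk_inj, Finset.card_univ, Fintype.card_perm,
        Fintype.card_fin, card_range]
  have h2 : (lexInit n m).image rk = range m := by
    ext x
    rw [mem_image, mem_range]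
    constructor
    · rintro ⟨σ, hσ, rfl⟩
      exact (mem_lexInit m σ).1 hσ
    · intro hx
      have h3 : x ∈ (univ : Finset (Perm (Fin n))).image rk := by
        rw [h1, mem_range]; omega
      rw [mem_image] at h3
      obtain ⟨σ, _, rfl⟩ := h3
      exact ⟨σ, (mem_lexInit m σ).2 hx, rfl⟩
  rw [← Finset.card_image_of_injective _ rk_inj, h2, card_range]

theorem lexInit_mono {m m' : ℕ} (h : m ≤ m') : lexInit n m ⊆ lexInit n m' := by
  intro σ hσ
  rw [mem_lexInit] at hσ ⊢
  omega

theorem lexInit_lower (m : ℕ) : ∀ σ ∈ lexInit n m, ∀ π, lt π σ → π ∈ lexInit n m := by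
  intro σ hσ π hπ
  rw [mem_lexInit] at hσ ⊢
  exact (rk_lt hπ).trans hσ

/-- the cycle of the values: `s ↦ s + j`, `s + 1, …, s + j ↦ s, …, s + j - 1` -/
def hf (s v : Fin n) (x : Fin n) : Fin n :=
  if h : s ≤ x ∧ x < v then ⟨x + 1, by
    have h1 := h.2
    rw [Fin.lt_def] at h1
    exact lt_of_le_of_lt h1 v.2⟩
  else if x = v then s else x

theorem hf_lt {s v x : Fin n} (hsv : s ≤ v) (h : x < s) : hf s v x = x := by
  unfold hf
  rw [dif_neg, if_neg]
  · exact (h.trans_le hsv).ne
  · rintro ⟨h1, _⟩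
    exact absurd h (not_lt.2 h1)

theorem hf_self (s v : Fin n) : hf s v v = s := by
  unfold hf
  rw [dif_neg, if_pos rfl]
  rintro ⟨_, h⟩
  exact lt_irrefl _ h

theorem hf_mid {s v x : Fin n} (h1 : s ≤ x) (h2 : x < v) : (hf s v x : ℕ) = x + 1 := by
  unfold hf
  rw [dif_pos ⟨h1, h2⟩]

theorem hf_gt {s v x : Fin n} (h : v < x) : hf s v x = x := by
  unfold hf
  rw [dif_neg, if_neg h.ne']
  rintro ⟨_, h1⟩
  exact absurd h (not_lt.2 h1.le)

theorem hf_inj {s v : Fin n} (hsv : s ≤ v) : Function.Injective (hf s v) := by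
  have hval : ∀ x : Fin n, (hf s v x : ℕ) = if (x : ℕ) < s then (x : ℕ)
      else if (x : ℕ) < v then x + 1 else if (x : ℕ) = v then (s : ℕ) else x := by
    intro x
    by_cases h1 : x < s
    · rw [hf_lt hsv h1, if_pos (Fin.lt_def.1 h1)]
    · rw [if_neg (fun h => h1 (Fin.lt_def.2 h))]
      rw [not_lt] at h1
      by_cases h2 : x < v
      · rw [hf_mid h1 h2, if_pos (Fin.lt_def.1 h2)]
      · rw [if_neg (fun h => h2 (Fin.lt_def.2 h))]
        by_cases h3 : x = v
        · subst h3
          rw [hf_self, if_pos rfl]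
        · rw [if_neg (fun h => h3 (Fin.ext h)), hf_gt]
          exact lt_of_le_of_ne (not_lt.1 h2) (Ne.symm h3)
  intro x y h
  have h1 := congrArg Fin.val h
  rw [hval, hval] at h1
  have h2 : (s : ℕ) ≤ v := hsv
  apply Fin.ext
  split_ifs at h1 <;> omega

/-- the permutation of the values -/
noncomputable def hp (s v : Fin n) (hsv : s ≤ v) : Perm (Fin n) :=
  Equiv.ofBijective (hf s v) (Finite.injective_iff_bijective.1 (hf_inj hsv))

theorem hp_apply (s v : Fin n) (hsv : s ≤ v) (x : Fin n) : hp s v hsv x = hf s v x := rfl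

/-- the next block -/
noncomputable def Blk (s v : Fin n) (hsv : s ≤ v) (y : ℕ) : Finset (Perm (Fin n)) :=
  lm (hp s v hsv) (lexInit n y)

theorem lexInit_fix (s : Fin n) (q y : ℕ) (hq : n - 1 - s = q) (hy : y ≤ q !)
    {σ : Perm (Fin n)} (hσ : σ ∈ lexInit n y) : ∀ i, i ≤ s → σ i = i := by
  have h1 := lexInit_mono (n := n) hy hσ
  have h2 := lexInit_eq (E s 1) (E_lower s 1)
  rw [card_E s 1 (by omega), hq, one_mul] at h2
  rw [h2, mem_E] at h1
  intro i hi
  rcases eq_or_lt_of_le hi with h | h
  · subst h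
    have h3 := val_ge h1.1 le_rfl
    apply Fin.ext
    have h4 : (i : ℕ) ≤ σ i := h3
    omega
  · exact h1.1 i h

theorem Blk_fix (s v : Fin n) (hsv : s ≤ v) (q y : ℕ) (hq : n - 1 - s = q) (hy : y ≤ q !)
    {σ : Perm (Fin n)} (hσ : σ ∈ Blk s v hsv y) : (∀ i, i < s → σ i = i) ∧ σ s = v := by
  unfold Blk lm at hσ
  rw [mem_filter] at hσ
  have h1 := lexInit_fix s q y hq hy hσ.2
  constructor
  · intro i hi
    have h2 := h1 i hi.le
    rw [Perm.mul_apply, hp_apply] at h2
    apply hf_inj hsv
    rw [h2, hf_lt hsv hi]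
  · have h2 := h1 s le_rfl
    rw [Perm.mul_apply, hp_apply] at h2
    apply hf_inj hsv
    rw [h2, hf_self]

theorem hf_mono {s v a b : Fin n} (ha : s ≤ a) (hav : a ≠ v) (hbv : b ≠ v)
    (hab : a < b) : hf s v a < hf s v b := by
  have hb : s ≤ b := ha.trans hab.le
  rw [Fin.lt_def]
  rw [Fin.lt_def] at hab
  rcases lt_or_gt_of_ne hav with h1 | h1
  · rw [hf_mid ha h1]
    rcases lt_or_gt_of_ne hbv with h2 | h2
    · rw [hf_mid hb h2]; omega
    · rw [hf_gt h2]
      rw [Fin.lt_def] at h1 h2
      omega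
  · rw [hf_gt h1]
    have h2 : v < b := h1.trans (Fin.lt_def.2 hab)
    rw [hf_gt h2]
    exact hab

theorem union_lower (s v : Fin n) (hsv : s ≤ v) (q y j : ℕ) (hq : n - 1 - s = q) (hy : y ≤ q !)
    (hj : (v : ℕ) = s + j) :
    ∀ σ ∈ E s j ∪ Blk s v hsv y, ∀ π, lt π σ → π ∈ E s j ∪ Blk s v hsv y := by
  intro σ hσ π hπ
  rw [mem_union] at hσ ⊢
  rcases hσ with hσ | hσ
  · exact Or.inl (E_lower s j σ hσ π hπ)
  · have h1 := Blk_fix s v hsv q y hq hy hσ
    have h2 : σ ∈ E s (j + 1) := by
      rw [mem_E]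
      refine ⟨h1.1, ?_⟩
      rw [h1.2]
      omega
    have h3 := mem_E.1 (E_lower s (j + 1) σ h2 π hπ)
    by_cases h4 : (π s : ℕ) < s + j
    · exact Or.inl (mem_E.2 ⟨h3.1, h4⟩)
    · right
      have h5 : π s = v := by
        apply Fin.ext
        omega
      unfold Blk lm at hσ ⊢
      rw [mem_filter] at hσ ⊢
      refine ⟨mem_univ _, lexInit_lower y _ hσ.2 _ ?_⟩
      obtain ⟨k, hk1, hk2⟩ := hπ
      refine ⟨k, fun i hi => ?_, ?_⟩
      · rw [Perm.mul_apply, Perm.mul_apply, hk1 i hi]
      · rw [Perm.mul_apply, Perm.mul_apply, hp_apply, hp_apply]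
        have hks : s < k := by
          by_contra h0
          rw [not_lt] at h0
          rcases eq_or_lt_of_le h0 with h6 | h6
          · subst h6
            rw [h5, h1.2] at hk2
            exact lt_irrefl _ hk2
          · rw [h3.1 k h6, h1.1 k h6] at hk2
            exact lt_irrefl _ hk2
        refine hf_mono (val_ge h3.1 hks.le) ?_ ?_ hk2
        · intro h6
          rw [← h5] at h6
          exact hks.ne (π.injective h6).symm
        · intro h6
          rw [← h1.2] at h6
          exact hks.ne (σ.injective h6).symm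

theorem disj (s v : Fin n) (hsv : s ≤ v) (q y j : ℕ) (hq : n - 1 - s = q) (hy : y ≤ q !)
    (hj : (v : ℕ) = s + j) : Disjoint (E s j) (Blk s v hsv y) := by
  rw [disjoint_left]
  intro σ h1 h2
  rw [mem_E] at h1
  have h3 := (Blk_fix s v hsv q y hq hy h2).2
  rw [h3] at h1
  omega

theorem lexInit_rec (s v : Fin n) (hsv : s ≤ v) (q y j : ℕ) (hq : n - 1 - s = q) (hy : y ≤ q !)
    (hj : (v : ℕ) = s + j) :
    lexInit n (j * q ! + y) = E s j ∪ Blk s v hsv y := by
  have h1 := lexInit_eq _ (union_lower s v hsv q y j hq hy hj)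
  rw [card_union_of_disjoint (disj s v hsv q y j hq hy hj), card_E s j (by omega), hq] at h1
  have h2 : (Blk s v hsv y).card = y := by
    unfold Blk
    rw [card_lm, card_lexInit]
    exact hy.trans (factorial_le (by omega))
  rw [h2] at h1
  exact h1

theorem X_Blk (s v : Fin n) (hsv : s ≤ v) (q y j : ℕ) (hq : n - 1 - s = q) (hy : y ≤ q !)
    (hj : (v : ℕ) = s + j) : y * (2 * j) ≤ X (Blk s v hsv y) (E s j) := by
  classical
  have h2 : (Blk s v hsv y).card = y := by
    unfold Blk
    rw [card_lm, card_lexInit]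
    exact hy.trans (factorial_le (by omega))
  rw [X_eq_sum]
  calc y * (2 * j) = ∑ σ ∈ Blk s v hsv y, 2 * j := by rw [sum_const, h2, smul_eq_mul]
    _ ≤ _ := by
      refine sum_le_sum fun σ hσ => ?_
      have hσ' := Blk_fix s v hsv q y hq hy hσ
      have hWc := card_W s j (by omega)
      have hWs : ∀ w ∈ W s j, s < σ.symm w := by
        intro w hw
        have h1 := (mem_filter.1 hw).2
        by_contra h0
        rw [not_lt] at h0
        rcases eq_or_lt_of_le h0 with h3 | h3
        · rw [Equiv.symm_apply_eq, hσ'.2] at h3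
          rw [h3] at h1
          omega
        · have h4 := hσ'.1 _ h3
          rw [Equiv.apply_symm_apply] at h4
          rw [← h4] at h3
          exact absurd h1.1 (not_le.2 h3)
      have hI1c : ((W s j).image fun w => ((s, σ.symm w) : Fin n × Fin n)).card = j := by
        rw [Finset.card_image_of_injective, hWc]
        intro a b hab
        exact σ.symm.injective (Prod.ext_iff.1 hab).2
      have hI2c : ((W s j).image fun w => ((σ.symm w, s) : Fin n × Fin n)).card = j := by
        rw [Finset.card_image_of_injective, hWc]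
        intro a b hab
        exact σ.symm.injective (Prod.ext_iff.1 hab).1
      have hd1 : Disjoint ((W s j).image fun w => ((s, σ.symm w) : Fin n × Fin n))
          ((W s j).image fun w => ((σ.symm w, s) : Fin n × Fin n)) := by
        rw [disjoint_left]
        intro t h1 h3
        rw [mem_image] at h1 h3
        obtain ⟨a, ha, rfl⟩ := h1
        obtain ⟨b, hb, h4⟩ := h3
        have h5 := hWs b hb
        have h6 : σ.symm b = s := (Prod.ext_iff.1 h4).1
        rw [h6] at h5
        exact lt_irrefl _ h5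
      have hsub : ((W s j).image fun w => ((s, σ.symm w) : Fin n × Fin n)) ∪
          ((W s j).image fun w => ((σ.symm w, s) : Fin n × Fin n)) ⊆
          (univ : Finset (Fin n)).offDiag.filter fun t => σ * swap t.1 t.2 ∈ E s j := by
        intro t ht
        rw [mem_union] at ht
        rw [mem_filter, mem_offDiag, mem_E]
        rcases ht with ht | ht
        · rw [mem_image] at ht
          obtain ⟨w, hw, rfl⟩ := ht
          have h1 := hWs w hw
          refine ⟨⟨mem_univ _, mem_univ _, h1.ne⟩, fun i hi => ?_, ?_⟩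
          · rw [Perm.mul_apply, swap_apply_of_ne_of_ne hi.ne (hi.trans h1).ne, hσ'.1 i hi]
          · rw [Perm.mul_apply, swap_apply_left, Equiv.apply_symm_apply]
            exact (mem_filter.1 hw).2.2
        · rw [mem_image] at ht
          obtain ⟨w, hw, rfl⟩ := ht
          have h1 := hWs w hw
          refine ⟨⟨mem_univ _, mem_univ _, h1.ne'⟩, fun i hi => ?_, ?_⟩
          · rw [Perm.mul_apply, swap_apply_of_ne_of_ne (hi.trans h1).ne hi.ne, hσ'.1 i hi]
          · rw [Perm.mul_apply, swap_apply_right, Equiv.apply_symm_apply]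
            exact (mem_filter.1 hw).2.2
      refine le_trans ?_ (card_le_card hsub)
      rw [card_union_of_disjoint hd1, hI1c, hI2c]
      omega

/-- The recursion for the inner triples of initial segments. -/
theorem S_rec (s : Fin n) (q y j : ℕ) (hq : n - 1 - s = q) (hy : y ≤ q !) (hj : j ≤ q) :
    G q (j * (q ! : ℕ) : ℕ) + S (lexInit n y) + 4 * j * y ≤
      S (lexInit n (j * q ! + y)) := by
  have hlt : (s : ℕ) + j < n := by
    have := s.2
    omega
  set v : Fin n := ⟨s + j, hlt⟩ with hv
  have hsv : s ≤ v := by rw [Fin.le_def, hv]; simp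
  have hjv : (v : ℕ) = s + j := by rw [hv]
  rw [lexInit_rec s v hsv q y j hq hy hjv, S_union (disj s v hsv q y j hq hy hjv)]
  have h1 := G_le_S_E s j q hq (by omega)
  have h2 : S (Blk s v hsv y) = S (lexInit n y) := S_lm _ _
  have h3 := X_Blk s v hsv q y j hq hy hjv
  rw [h2]
  have h4 : ((y * (2 * j) : ℕ) : ℝ) ≤ X (Blk s v hsv y) (E s j) := by exact_mod_cast h3
  push_cast at h4 h1 ⊢
  linarith

end Pool.Agent.K9h87.TI
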