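import Pool.Agent.K9h87.TI.Basic
import Pool.Agent.K9h87.TI.Num

/-!
# The row lemma and complementation inside a coset
-/

set_option autoImplicit false

namespace Pool.Agent.K9h87.TI

open Finset Equiv Nat

variable {n : ℕ}

/-- The part of `A` whose value at `p` has rank at least `j`. -/
def tl (A : Finset (Perm (Fin n))) (p : Fin n) (τ : Perm (Fin n)) (j : ℕ) :
    Finset (Perm (Fin n)) :=
  A.filter fun σ => j ≤ (τ.symm (σ p) : ℕ)

/-- The part of `A` whose value at `p` has rank `j`. -/
def lv (A : Finset (Perm (Fin n))) (p : Fin n) (τ : Perm (Fin n)) (j : ℕ) :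
    Finset (Perm (Fin n)) :=
  A.filter fun σ => (τ.symm (σ p) : ℕ) = j

theorem lv_eq (A : Finset (Perm (Fin n))) (p : Fin n) (τ : Perm (Fin n)) (j : ℕ) (hj : j < n) :
    lv A p τ j = cls A p (τ ⟨j, hj⟩) := by
  unfold lv cls
  refine filter_congr fun σ _ => ?_
  rw [← Equiv.symm_apply_eq, Fin.ext_iff]

theorem tl_eq (A : Finset (Perm (Fin n))) (p : Fin n) (τ : Perm (Fin n)) (j : ℕ) :
    tl A p τ j = lv A p τ j ∪ tl A p τ (j + 1) := by
  ext σ
  simp only [tl, lv, mem_union, mem_filter]
  constructor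
  · rintro ⟨h1, h2⟩
    rcases Nat.eq_or_lt_of_le h2 with h | h
    · exact Or.inl ⟨h1, h.symm⟩
    · exact Or.inr ⟨h1, h⟩
  · rintro (⟨h1, h2⟩ | ⟨h1, h2⟩)
    · exact ⟨h1, h2.ge⟩
    · exact ⟨h1, by omega⟩

theorem tl_zero (A : Finset (Perm (Fin n))) (p : Fin n) (τ : Perm (Fin n)) :
    tl A p τ 0 = A := by
  simp [tl]

theorem tl_top (A : Finset (Perm (Fin n))) (p : Fin n) (τ : Perm (Fin n)) :
    tl A p τ n = ∅ := by
  unfold tl
  rw [filter_eq_empty_iff]
  intro σ _ h
  have := (τ.symm (σ p)).2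
  omega

theorem card_tl (A : Finset (Perm (Fin n))) (p : Fin n) (τ : Perm (Fin n)) (j : ℕ) :
    (tl A p τ j).card = (lv A p τ j).card + (tl A p τ (j + 1)).card := by
  rw [tl_eq, card_union_of_disjoint]
  rw [disjoint_left]
  intro σ h1 h2
  simp only [tl, lv, mem_filter] at h1 h2
  omega

theorem tails (A : Finset (Perm (Fin n))) (p : Fin n) (τ : Perm (Fin n)) :
    ∀ j, j ≤ n → S A ≤ ∑ i ∈ range j, (S (lv A p τ i) + 4 * (tl A p τ (i + 1)).card) +
      S (tl A p τ j) := by
  intro j
  induction j with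
  | zero => intro _; simp [tl_zero]
  | succ j ih =>
    intro hj
    have h1 := ih (by omega)
    have h2 := peel (tl A p τ j) (tl A p τ (j + 1)) (lv A p τ j) p (τ ⟨j, hj⟩)
      (tl_eq A p τ j)
      (by
        intro σ hσ
        rw [lv_eq _ _ _ _ hj] at hσ
        exact (mem_filter.1 hσ).2)
      (by
        intro σ hσ h
        unfold tl at hσ
        rw [mem_filter, h, Equiv.symm_apply_apply] at hσ
        have := hσ.2
        simp at this)
    rw [sum_range_succ]
    omega

theorem tl_antitone (A : Finset (Perm (Fin n))) (p : Fin n) (τ : Perm (Fin n)) {i j : ℕ}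
    (h : i ≤ j) : (tl A p τ j).card ≤ (tl A p τ i).card := by
  apply card_le_card
  intro σ hσ
  simp only [tl, mem_filter] at hσ ⊢
  exact ⟨hσ.1, by omega⟩

theorem cls_lt {A : Finset (Perm (Fin n))} {p : Fin n} (hp : p ∈ act A) (v : Fin n) :
    (cls A p v).card < A.card := by
  apply card_lt_card
  rw [mem_act] at hp
  obtain ⟨σ, hσ, π, hπ, hne⟩ := hp
  refine ⟨filter_subset _ _, fun h => ?_⟩
  have h1 := (mem_filter.1 (h hσ)).2
  have h2 := (mem_filter.1 (h hπ)).2
  exact hne (h1.trans h2.symm)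

/-- The row lemma. -/
theorem row (A : Finset (Perm (Fin n))) (p : Fin n) (hp : p ∈ act A) (r : ℕ)
    (IH : ∀ B : Finset (Perm (Fin n)), B.card < A.card → ∀ q, (S B : ℝ) ≤ G q B.card) :
    (S A : ℝ) ≤ G (r + 1) A.card ∨ ((∀ v, (cls A p v).card < (r + 1)!) ∧
      ((r : ℝ) + 1) * ∑ v, ((cls A p v).card : ℝ) ^ 2 ≤ (A.card : ℝ) ^ 2) := by
  by_cases h : ∃ v, (r + 1)! ≤ (cls A p v).card
  · left
    obtain ⟨v, hv⟩ := h
    have h0 := factorial_pos (r + 1)
    have h1 := cls_lt hp v
    have hA : A = cls A p v ∪ A.filter (fun σ => ¬ σ p = v) := by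
      unfold cls
      rw [filter_union_filter_not_eq]
    have h2 : (cls A p v).card + (A.filter fun σ => ¬ σ p = v).card = A.card := by
      unfold cls
      exact card_filter_add_card_filter_not _
    have h3 := peel A (A.filter fun σ => ¬ σ p = v) (cls A p v) p v hA
      (fun σ hσ => (mem_filter.1 hσ).2) (fun σ hσ => (mem_filter.1 hσ).2)
    have h4 := IH _ h1 (r + 1)
    have h5 := IH (A.filter fun σ => ¬ σ p = v) (by omega) (r + 1)
    have h6 := G_peel (r + 1) (cls A p v).card (A.filter fun σ => ¬ σ p = v).card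
      (by exact_mod_cast hv) (Nat.cast_nonneg _)
    have h7 : (S A : ℝ) ≤ S (cls A p v) + S (A.filter fun σ => ¬ σ p = v) +
        4 * (A.filter fun σ => ¬ σ p = v).card := by exact_mod_cast h3
    have h8 : ((cls A p v).card : ℝ) + (A.filter fun σ => ¬ σ p = v).card = A.card := by
      exact_mod_cast h2
    rw [h8] at h6
    linarith
  · push Not at h
    have hApos : 0 < A.card := by
      rw [mem_act] at hp
      obtain ⟨σ, hσ, _⟩ := hp
      exact card_pos.2 ⟨σ, hσ⟩
    set τ : Perm (Fin n) := Tuple.sort fun v => -((cls A p v).card : ℤ) with hτ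
    have hmono : ∀ i j : Fin n, i ≤ j → (cls A p (τ j)).card ≤ (cls A p (τ i)).card := by
      intro i j hij
      have h9 : -((cls A p (τ i)).card : ℤ) ≤ -((cls A p (τ j)).card : ℤ) :=
        Tuple.monotone_sort (fun v => -((cls A p v).card : ℤ)) hij
      omega
    -- the largest class is nonempty
    have hn : 0 < n := p.pos
    have hfirst : 0 < (lv A p τ 0).card := by
      rw [lv_eq _ _ _ _ hn]
      by_contra h0
      push Not at h0
      have h1 : ∑ v, (cls A p v).card = 0 := by
        refine sum_eq_zero fun v _ => ?_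
        have h2 := hmono ⟨0, hn⟩ (τ.symm v) (Fin.mk_le_of_le_val (Nat.zero_le _))
        rw [Equiv.apply_symm_apply] at h2
        omega
      rw [sum_cls] at h1
      omega
    have htl1 : (tl A p τ 1).card < A.card := by
      have h1 := card_tl A p τ 0
      rw [tl_zero, zero_add] at h1
      omega
    have h1 := row_num r n (S A) (fun i => ((lv A p τ i).card : ℝ))
      (fun i => ((tl A p τ i).card : ℝ))
      (fun i _ => by exact_mod_cast card_tl A p τ i)
      (by simp [tl_top])
      (fun i _ => by positivity)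
      (fun i hi => by
        simp only [lv_eq _ _ _ _ hi]
        exact_mod_cast h _)
      (fun i hi => by
        simp only [lv_eq _ _ _ _ hi, lv_eq _ _ _ _ (show i < n by omega)]
        exact_mod_cast hmono _ _ (Fin.mk_le_mk.2 (by omega)))
      (by
        intro j hj1 hj2
        have h2 := tails A p τ j hj2
        have h3 : (S A : ℝ) ≤ ∑ i ∈ range j, ((S (lv A p τ i) : ℝ) +
            4 * (tl A p τ (i + 1)).card) + S (tl A p τ j) := by exact_mod_cast h2
        refine h3.trans ?_
        have h4 : (S (tl A p τ j) : ℝ) ≤ G (r + 1) (tl A p τ j).card :=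
          IH _ ((tl_antitone A p τ hj1).trans_lt htl1) _
        have h5 : ∑ i ∈ range j, ((S (lv A p τ i) : ℝ) + 4 * (tl A p τ (i + 1)).card) ≤
            ∑ i ∈ range j, (G r (lv A p τ i).card + 4 * (tl A p τ (i + 1)).card) := by
          refine sum_le_sum fun i hi => ?_
          rw [mem_range] at hi
          have h6 : (S (lv A p τ i) : ℝ) ≤ G r (lv A p τ i).card := by
            rw [lv_eq _ _ _ _ (show i < n by omega)]
            exact IH _ (cls_lt hp _) _
          linarith
        linarith)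
    rw [tl_zero] at h1
    rcases h1 with h1 | h1
    · exact Or.inl h1
    · right
      refine ⟨h, ?_⟩
      have h2 : ∑ v, ((cls A p v).card : ℝ) ^ 2 =
          ∑ i ∈ range n, ((lv A p τ i).card : ℝ) ^ 2 := by
        rw [← Equiv.sum_comp τ, ← Fin.sum_univ_eq_sum_range
          (fun i => ((lv A p τ i).card : ℝ) ^ 2)]
        refine sum_congr rfl fun i _ => ?_
        rw [lv_eq _ _ _ _ i.2]
      rw [h2]
      exact h1

/-- The coset of all permutations that agree with `σ₀` outside `P`. -/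
def cos (σ₀ : Perm (Fin n)) (P : Finset (Fin n)) : Finset (Perm (Fin n)) :=
  univ.filter fun σ => ∀ a, a ∉ P → σ a = σ₀ a

theorem card_cos (σ₀ : Perm (Fin n)) (P : Finset (Fin n)) : (cos σ₀ P).card = P.card ! := by
  have h1 : (cos σ₀ P).card =
      (univ.filter fun f : Perm (Fin n) => ∀ a, ¬ a ∈ P → f a = a).card := by
    unfold cos
    refine card_bij' (fun σ _ => σ₀⁻¹ * σ) (fun f _ => σ₀ * f) ?_ ?_ ?_ ?_
    · intro σ hσ
      rw [mem_filter] at hσ ⊢
      refine ⟨mem_univ _, fun a ha => ?_⟩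
      rw [Perm.mul_apply, hσ.2 a ha]
      exact Equiv.symm_apply_apply σ₀ a
    · intro f hf
      rw [mem_filter] at hf ⊢
      refine ⟨mem_univ _, fun a ha => ?_⟩
      rw [Perm.mul_apply, hf.2 a ha]
    · intro σ _
      simp
    · intro f _
      simp
  rw [h1, ← Fintype.card_subtype, ← Fintype.card_congr (Perm.subtypeEquivSubtypePerm (· ∈ P)),
    Fintype.card_perm, Fintype.card_coe]

theorem subset_cos (A : Finset (Perm (Fin n))) (σ₀ : Perm (Fin n)) (h : σ₀ ∈ A) :
    A ⊆ cos σ₀ (act A) := by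
  intro σ hσ
  unfold cos
  rw [mem_filter]
  refine ⟨mem_univ _, fun a ha => ?_⟩
  by_contra hne
  exact ha (mem_act.2 ⟨σ, hσ, σ₀, h, hne⟩)

theorem X_cos (σ₀ : Perm (Fin n)) (P : Finset (Fin n)) (B : Finset (Perm (Fin n)))
    (hB : B ⊆ cos σ₀ P) : X B (cos σ₀ P) = B.card * P.offDiag.card := by
  rw [X_eq_sum]
  rw [sum_congr rfl (g := fun _ => P.offDiag.card), sum_const, smul_eq_mul]
  intro σ hσ
  congr 1
  have hσ' := hB hσ
  unfold cos at hσ' ⊢
  rw [mem_filter] at hσ'
  ext t
  simp only [mem_filter, mem_offDiag, mem_univ, true_and]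
  constructor
  · rintro ⟨hne, h⟩
    refine ⟨?_, ?_, hne⟩
    · by_contra h1
      have h2 := h _ h1
      rw [Perm.mul_apply, swap_apply_left, ← hσ'.2 _ h1] at h2
      exact hne (σ.injective h2).symm
    · by_contra h1
      have h2 := h _ h1
      rw [Perm.mul_apply, swap_apply_right, ← hσ'.2 _ h1] at h2
      exact hne (σ.injective h2)
  · rintro ⟨h1, h2, hne⟩
    refine ⟨hne, fun a ha => ?_⟩
    rw [Perm.mul_apply, swap_apply_of_ne_of_ne, hσ'.2 a ha]
    · rintro rfl; exact ha h1
    · rintro rfl; exact ha h2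

/-- Complementation inside a coset. -/
theorem S_compl (σ₀ : Perm (Fin n)) (P : Finset (Fin n)) (A : Finset (Perm (Fin n)))
    (hA : A ⊆ cos σ₀ P) :
    S A + (cos σ₀ P \ A).card * P.offDiag.card =
      S (cos σ₀ P \ A) + A.card * P.offDiag.card := by
  have h1 := X_cos σ₀ P A hA
  have h2 := X_cos σ₀ P (cos σ₀ P \ A) sdiff_subset
  have h3 : cos σ₀ P = A ∪ cos σ₀ P \ A := by
    rw [union_sdiff_of_subset hA]
  have hd : Disjoint A (cos σ₀ P \ A) := disjoint_sdiff
  have h4 : X A (cos σ₀ P) = X A A + X A (cos σ₀ P \ A) := by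
    conv_lhs => rw [h3]
    exact X_union_right _ hd
  have h5 : X (cos σ₀ P \ A) (cos σ₀ P) = X (cos σ₀ P \ A) A +
      X (cos σ₀ P \ A) (cos σ₀ P \ A) := by
    conv_lhs => rw [h3]
    rw [X_union_right _ hd, ← h3]
  have h6 := X_comm A (cos σ₀ P \ A)
  unfold S
  omega

end Pool.Agent.K9h87.TI
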